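import Pool.Agent.H52.DF.Main

set_option autoImplicit false

namespace Pool.Agent.H52.DF

open Finset

variable {ι κ : Type}

/-! ### Digit complements -/

/-- the generator with `q`-part `q ^ j` which is divisible by the other prime powers of `ω` -/
def gg (ω q j : ℕ) : ℕ := ω / q ^ ω.factorization q * q ^ j

theorem gg_dvd {ω q j e : ℕ} (hω : ω ≠ 0) (hq : q.Prime) : q ^ e ∣ gg ω q j ↔ e ≤ j := by
  have h1 : Nat.Coprime (q ^ e) (ω / q ^ ω.factorization q) :=
    Nat.Coprime.pow_left _ ((Nat.Prime.coprime_iff_not_dvd hq).2 (Nat.not_dvd_ordCompl hq hω))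
  unfold gg
  rw [h1.dvd_mul_left, Nat.pow_dvd_pow_iff_le_right hq.one_lt]

theorem gg_dvd' {ω q q' j : ℕ} (hq : q.Prime) (hq' : q'.Prime) (h : q' ≠ q) :
    q' ^ ω.factorization q' ∣ gg ω q j := by
  unfold gg
  refine Dvd.dvd.mul_right ?_ _
  have h1 : Nat.Coprime (q' ^ ω.factorization q') (q ^ ω.factorization q) :=
    Nat.Coprime.pow _ _ ((Nat.coprime_primes hq' hq).2 h)
  refine h1.dvd_of_dvd_mul_left ?_
  rw [Nat.ordProj_mul_ordCompl_eq_self]
  exact Nat.ordProj_dvd ω q'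

theorem sum_gg {ω q : ℕ} (hω : ω ≠ 0) (hq : q.Prime) (T : Finset ℕ) (hT : ∀ p ∈ T, p.Prime) (f : ℕ → ℕ) (hqT : q ∈ T)
    {e : ℕ} (he : e ≤ ω.factorization q) : q ^ e ∣ ∑ p ∈ T, gg ω p (f p) ↔ e ≤ f q := by
  rw [← Finset.add_sum_erase T _ hqT]
  have h1 : q ^ e ∣ ∑ p ∈ T.erase q, gg ω p (f p) := by
    refine Finset.dvd_sum fun p hp => ?_
    rw [Finset.mem_erase] at hp
    exact dvd_trans (pow_dvd_pow q he) (gg_dvd' (hT p hp.2) hq (fun h => hp.1 h.symm))
  rw [(Nat.dvd_add_iff_left h1).symm, gg_dvd hω hq]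

theorem sum_gg' {ω q : ℕ} (hq : q.Prime) (T : Finset ℕ) (hT : ∀ p ∈ T, p.Prime) (f : ℕ → ℕ) (hqT : q ∉ T)
    {e : ℕ} (he : e ≤ ω.factorization q) : q ^ e ∣ ∑ p ∈ T, gg ω p (f p) := by
  refine Finset.dvd_sum fun p hp => ?_
  exact dvd_trans (pow_dvd_pow q he) (gg_dvd' (hT p hp) hq (fun h => hqT (h ▸ hp)))

/-- the digit set of `D` -/
def dig (ω : ℕ) (D : Finset (ℕ × ℕ)) (ε : (x : {x // x ∈ D}) → Fin x.1.1) : ℤ :=
  ∑ x : {x // x ∈ D}, (((ε x : ℕ) : ℤ)) * (gg ω x.1.1 x.1.2 : ℤ)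

theorem dig_card (D : Finset (ℕ × ℕ)) : Fintype.card ((x : {x // x ∈ D}) → Fin x.1.1) = ∏ x ∈ D, x.1 := by
  rw [Fintype.card_pi]
  simp only [Fintype.card_fin]
  exact Finset.prod_coe_sort D (fun x => x.1)

/-- sums of generators are in the digit set -/
theorem dig_mem {ω : ℕ} {D : Finset (ℕ × ℕ)} (hD : ∀ x ∈ D, x.1.Prime) (T : Finset ℕ) (f : ℕ → ℕ)
    (hT : ∀ q ∈ T, (q, f q) ∈ D) : ∃ ε : (x : {x // x ∈ D}) → Fin x.1.1, dig ω D ε = ((∑ q ∈ T, gg ω q (f q) : ℕ) : ℤ) ∧
      ∀ q (hq : q ∈ T), (ε ⟨(q, f q), hT q hq⟩ : ℕ) = 1 := by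
  classical
  refine ⟨fun x => if x.1.1 ∈ T ∧ x.1.2 = f x.1.1 then ⟨1, (hD _ x.2).one_lt⟩ else ⟨0, (hD _ x.2).pos⟩, ?_, ?_⟩
  · unfold dig
    have h1 : ∀ x : {x // x ∈ D}, ((((if x.1.1 ∈ T ∧ x.1.2 = f x.1.1 then (⟨1, (hD _ x.2).one_lt⟩ : Fin x.1.1) else
        ⟨0, (hD _ x.2).pos⟩ : Fin x.1.1) : ℕ) : ℤ)) * (gg ω x.1.1 x.1.2 : ℤ) =
        if x.1.1 ∈ T ∧ x.1.2 = f x.1.1 then (gg ω x.1.1 x.1.2 : ℤ) else 0 := by
      intro x
      split_ifs <;> simp
    rw [Finset.sum_congr rfl fun x _ => h1 x]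
    rw [Finset.sum_coe_sort D (fun x => if x.1 ∈ T ∧ x.2 = f x.1 then (gg ω x.1 x.2 : ℤ) else 0), ← Finset.sum_filter]
    push_cast
    symm
    refine Finset.sum_bij (fun q _ => (q, f q)) ?_ ?_ ?_ ?_
    · intro q hq
      rw [Finset.mem_filter]
      exact ⟨hT q hq, hq, rfl⟩
    · intro q _ q' _ h
      exact (Prod.mk.inj h).1
    · rintro ⟨q, j⟩ hx
      rw [Finset.mem_filter] at hx
      have h2 : j = f q := hx.2.2
      exact ⟨q, hx.2.1, by rw [h2]⟩
    · intro q _
      rfl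
  · intro q hq
    have h1 : (q ∈ T ∧ f q = f q) := ⟨hq, rfl⟩
    show ((if q ∈ T ∧ f q = f q then (⟨1, _⟩ : Fin q) else ⟨0, _⟩ : Fin q) : ℕ) = 1
    rw [if_pos h1]

/-- a multiplier between numbers with the same gcd -/
theorem mult {N : ℕ} [NeZero N] {x z : ℤ} (h : Int.gcd x N = Int.gcd z N) :
    ∃ r : ℕ, Nat.Coprime r N ∧ (N : ℤ) ∣ z - r * x := by
  have hN0 : N ≠ 0 := NeZero.ne N
  set d := Int.gcd x N with hd
  have hdN : d ∣ N := by
    have := Int.gcd_dvd_right x (N : ℤ)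
    exact_mod_cast this
  have hd0 : d ≠ 0 := fun h => hN0 (Nat.eq_zero_of_zero_dvd (h ▸ hdN))
  have hdZ : (d : ℤ) ≠ 0 := by exact_mod_cast hd0
  obtain ⟨M, hM⟩ := hdN
  have hM0 : M ≠ 0 := fun h => hN0 (by rw [hM, h, mul_zero])
  have : NeZero M := ⟨hM0⟩
  have cop : ∀ w : ℤ, Int.gcd w N = d → ∃ W : ℤ, w = d * W ∧ IsUnit ((W : ℤ) : ZMod M) := by
    intro w hw
    have h1 : (d : ℤ) ∣ w := by
      rw [← hw]
      exact Int.gcd_dvd_left w (N : ℤ)
    obtain ⟨W, hW⟩ := h1
    refine ⟨W, hW, ?_⟩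
    rw [ZMod.coe_int_isUnit_iff_isCoprime, Int.isCoprime_iff_gcd_eq_one]
    have h2 : Int.gcd ((d : ℤ) * W) ((d : ℤ) * M) = d := by
      rw [← hW]
      have : ((d : ℤ) * M) = (N : ℤ) := by rw [hM]; push_cast; ring
      rw [this, hw]
    rw [Int.gcd_mul_left, Int.natAbs_natCast] at h2
    rw [Int.gcd_comm]
    exact Nat.eq_of_mul_eq_mul_left (Nat.pos_of_ne_zero hd0) (by rw [h2, mul_one])
  obtain ⟨X, hX, uX, huX⟩ := cop x rfl
  obtain ⟨Z, hZ, uZ, huZ⟩ := cop z h.symm
  have hMN : M ∣ N := ⟨d, by rw [hM]; ring⟩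
  obtain ⟨U, hU⟩ := ZMod.unitsMap_surjective hMN (uZ * uX⁻¹)
  refine ⟨(U : ZMod N).val, ZMod.val_coe_unit_coprime U, ?_⟩
  have h1 : ((((U : ZMod N).val : ℕ) : ℤ) : ZMod M) = (uZ : ZMod M) * ((uX⁻¹ : (ZMod M)ˣ) : ZMod M) := by
    have h2 := congrArg (fun u : (ZMod M)ˣ => (u : ZMod M)) hU
    have h2 : ((ZMod.unitsMap hMN U : (ZMod M)ˣ) : ZMod M) = ((uZ * uX⁻¹ : (ZMod M)ˣ) : ZMod M) := h2
    rw [ZMod.unitsMap_val, Units.val_mul] at h2
    rw [← h2, Int.cast_natCast, ZMod.natCast_val]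
  have h3 : ((((U : ZMod N).val : ℕ) : ℤ) * X : ZMod M) = (Z : ZMod M) := by
    rw [h1, ← huX, ← huZ, mul_assoc, Units.inv_mul, mul_one]
  have h4 : (M : ℤ) ∣ Z - (((U : ZMod N).val : ℕ) : ℤ) * X := by
    rw [← ZMod.intCast_eq_intCast_iff_dvd_sub]
    push_cast
    push_cast at h3
    exact h3
  have h5 : z - (((U : ZMod N).val : ℕ) : ℤ) * x = d * (Z - (((U : ZMod N).val : ℕ) : ℤ) * X) := by
    rw [hX, hZ]
    ring
  have hNM : (N : ℤ) = d * M := by exact_mod_cast hM
  rw [h5, hNM]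
  exact mul_dvd_mul_left _ h4

/-- the number of digits of `D` at `q` -/
theorem fac_card {D : Finset (ℕ × ℕ)} (hD : ∀ x ∈ D, x.1.Prime) {q : ℕ} (hq : q.Prime) :
    (∏ x ∈ D, x.1).factorization q = (D.filter fun x => x.1 = q).card := by
  classical
  induction D using Finset.induction_on with
  | empty => simp
  | insert x D hx ih =>
    have h1 : ∀ y ∈ D, y.1.Prime := fun y hy => hD y (Finset.mem_insert_of_mem hy)
    have hx0 := hD x (Finset.mem_insert_self _ _)
    rw [Finset.prod_insert hx, Nat.factorization_mul hx0.ne_zero (Finset.prod_ne_zero_iff.2 fun y hy => (h1 y hy).ne_zero),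
      Finsupp.add_apply, ih h1, Finset.filter_insert]
    by_cases h : x.1 = q
    · rw [if_pos h, Finset.card_insert_of_notMem (fun h2 => hx (Finset.mem_filter.1 h2).1), h, hq.factorization_self]
      ring
    · rw [if_neg h, hx0.factorization, Finsupp.single_apply, if_neg h, zero_add]

/-- a digit complement: more than half of the classes implies all classes -/
theorem dig_main [Fintype ι] {ω n : ℕ} (hω : ω ≠ 0) (hn : n ≠ 0) (D : Finset (ℕ × ℕ))
    (hD : ∀ x ∈ D, x.1.Prime ∧ x.2 < ω.factorization x.1) {a : ι → ℤ} (hι : Fintype.card ι = n)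
    (hT : Til ω a (dig ω D)) (hh : Half n a) : Inj n a := by
  classical
  have hDp : ∀ x ∈ D, x.1.Prime := fun x hx => (hD x hx).1
  have hωz : NeZero ω := ⟨hω⟩
  have hcard := til_card hT
  rw [hι, dig_card] at hcard
  set m := ∏ x ∈ D, x.1 with hm
  have hm0 : m ≠ 0 := fun h => hω (by rw [← hcard, h, mul_zero])
  have hnω : n ∣ ω := ⟨m, hcard.symm⟩
  -- the numbers of digits
  have hfac : ∀ q : ℕ, q.Prime → n.factorization q + (D.filter fun x => x.1 = q).card = ω.factorization q := by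
    intro q hq
    rw [← fac_card hDp hq, ← hm, ← hcard, Nat.factorization_mul hn hm0, Finsupp.add_apply]
  by_cases hcase : ∀ x ∈ D, n.factorization x.1 ≤ x.2
  · -- all digits are multiples of `n`
    have hdiv : ∀ x ∈ D, n ∣ gg ω x.1 x.2 := by
      intro x hx
      have h1 : ordProj[x.1] n * ordCompl[x.1] n ∣ gg ω x.1 x.2 := by
        unfold gg
        rw [mul_comm]
        exact mul_dvd_mul (Nat.ordCompl_dvd_ordCompl_of_dvd hnω x.1) (pow_dvd_pow _ (hcase x hx))
      rwa [Nat.ordProj_mul_ordCompl_eq_self] at h1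
    have hdiv2 : ∀ ε, (n : ℤ) ∣ dig ω D ε := by
      intro ε
      unfold dig
      exact Finset.dvd_sum fun x _ => Dvd.dvd.mul_left (by exact_mod_cast hdiv x.1 x.2) _
    have hN : n * Fintype.card ((x : {x // x ∈ D}) → Fin x.1.1) = ω := by rw [dig_card]; exact hcard
    have hT' : Til (n * Fintype.card ((x : {x // x ∈ D}) → Fin x.1.1)) a (dig ω D) := by
      rw [hN]
      exact hT
    have e : ∀ ε, dig ω D ε = 0 + (n : ℤ) * (dig ω D ε / n) := by
      intro ε
      rw [Int.mul_ediv_cancel' (hdiv2 ε), zero_add]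
    have h2 := split_HH (n' := 1) hn one_ne_zero e
      (HH_one _ (fun x => (⟨0, (hDp _ x.2).pos⟩ : Fin x.1.1)))
    rw [mul_one] at h2
    exact h2 ⟨ι, inferInstance, a, hT', hh⟩ ι inferInstance a hT'
  · -- a bad prime
    exfalso
    push Not at hcase
    obtain ⟨x₀, hx₀, hlt₀⟩ := hcase
    -- the bad primes and their digits
    let Q : Finset ℕ := ω.primeFactors.filter fun q => ∃ j, (q, j) ∈ D ∧ j < n.factorization q
    have hQ : ∀ q ∈ Q, ∃ j, (q, j) ∈ D ∧ j < n.factorization q := fun q hq => (Finset.mem_filter.1 hq).2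
    let jj : ℕ → ℕ := fun q => if h : ∃ j, (q, j) ∈ D ∧ j < n.factorization q then h.choose else 0
    have hjj : ∀ q ∈ Q, (q, jj q) ∈ D ∧ jj q < n.factorization q := by
      intro q hq
      have h := hQ q hq
      have e : jj q = h.choose := dif_pos h
      rw [e]
      exact h.choose_spec
    have hQp : ∀ q ∈ Q, q.Prime := fun q hq => Nat.prime_of_mem_primeFactors (Finset.mem_filter.1 hq).1
    set y : ℕ := ∑ q ∈ Q, gg ω q (jj q) with hy
    obtain ⟨i, i', hii⟩ := diff_mem hn hh (y : ℤ)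
    set x : ℤ := a i - a i' with hx
    set g := Int.gcd x ω with hg
    have hgω : g ∣ ω := by
      have := Int.gcd_dvd_right x (ω : ℤ)
      exact_mod_cast this
    have hg0 : g ≠ 0 := fun h => hω (Nat.eq_zero_of_zero_dvd (h ▸ hgω))
    have hnfac : ∀ q, n.factorization q ≤ ω.factorization q := fun q => (Nat.factorization_le_iff_dvd hn hω).2 hnω q
    have hgfac : ∀ q, g.factorization q ≤ ω.factorization q := fun q => (Nat.factorization_le_iff_dvd hg0 hω).2 hgω q
    -- divisibility of `x`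
    have hxdvd : ∀ q e : ℕ, q.Prime → e ≤ ω.factorization q → (((q ^ e : ℕ) : ℤ) ∣ x ↔ e ≤ g.factorization q) := by
      intro q e hq he
      rw [← hq.pow_dvd_iff_le_factorization hg0]
      have h1 : q ^ e ∣ ω := (hq.pow_dvd_iff_le_factorization hω).2 he
      constructor
      · intro h
        exact Int.dvd_gcd h (by exact_mod_cast h1)
      · intro h
        exact dvd_trans (by exact_mod_cast h) (Int.gcd_dvd_left x (ω : ℤ))
    have hxy : ∀ q e : ℕ, q.Prime → e ≤ n.factorization q → (((q ^ e : ℕ) : ℤ) ∣ x ↔ q ^ e ∣ y) := by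
      intro q e hq he
      have h1 : q ^ e ∣ n := (hq.pow_dvd_iff_le_factorization hn).2 he
      have h2 : ((q ^ e : ℕ) : ℤ) ∣ (y : ℤ) - x := dvd_trans (by exact_mod_cast h1) hii
      have h3 : ((q ^ e : ℕ) : ℤ) ∣ x ↔ ((q ^ e : ℕ) : ℤ) ∣ (y : ℤ) := by
        constructor
        · intro h
          have := dvd_add h2 h
          rwa [sub_add_cancel] at this
        · intro h
          have := dvd_sub h h2
          rwa [sub_sub_cancel] at this
      rw [h3]
      exact Int.natCast_dvd_natCast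
    -- the exponents
    have hbad : ∀ q ∈ Q, g.factorization q = jj q := by
      intro q hq
      have hqp := hQp q hq
      obtain ⟨h1, h2⟩ := hjj q hq
      have h3 := (hxy q (jj q) hqp h2.le).2 ((sum_gg hω hqp Q hQp jj hq (h2.le.trans (hnfac q))).2 le_rfl)
      have h4 := (hxdvd q (jj q) hqp (h2.le.trans (hnfac q))).1 h3
      have h5 : ¬ jj q + 1 ≤ g.factorization q := by
        intro h6
        have h7 := (hxdvd q (jj q + 1) hqp (Nat.succ_le_of_lt h2 |>.trans (hnfac q))).2 h6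
        have h8 := (hxy q (jj q + 1) hqp (Nat.succ_le_of_lt h2)).1 h7
        have h9 := (sum_gg hω hqp Q hQp jj hq (Nat.succ_le_of_lt h2 |>.trans (hnfac q))).1 h8
        omega
      omega
    have hgood : ∀ q : ℕ, q.Prime → q ∉ Q → n.factorization q ≤ g.factorization q := by
      intro q hqp hq
      exact (hxdvd q _ hqp (hnfac q)).1 ((hxy q _ hqp le_rfl).2 (sum_gg' hqp Q hQp jj hq (hnfac q)))
    -- the digits of the good primes
    have hDgood : ∀ q ∈ ω.primeFactors, q ∉ Q → ∀ j, n.factorization q ≤ j → j < ω.factorization q → (q, j) ∈ D := by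
      intro q hq hqQ j hj1 hj2
      have hqp := Nat.prime_of_mem_primeFactors hq
      have h1 : (D.filter fun x => x.1 = q) ⊆ (Finset.Ico (n.factorization q) (ω.factorization q)).image (fun j => (q, j)) := by
        rintro ⟨q', j'⟩ hx
        rw [Finset.mem_filter] at hx
        obtain ⟨hx1, hx2⟩ := hx
        have hx2 : q' = q := hx2
        subst hx2
        rw [Finset.mem_image]
        refine ⟨j', Finset.mem_Ico.2 ⟨?_, (hD _ hx1).2⟩, rfl⟩
        by_contra h2
        push Not at h2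
        exact hqQ (Finset.mem_filter.2 ⟨hq, j', hx1, h2⟩)
      have h2 : ((Finset.Ico (n.factorization q) (ω.factorization q)).image (fun j => (q, j))).card ≤
          (D.filter fun x => x.1 = q).card := by
        refine Finset.card_image_le.trans ?_
        rw [Nat.card_Ico]
        have := hfac q hqp
        omega
      have h3 := Finset.eq_of_subset_of_card_le h1 h2
      have h4 : (q, j) ∈ (Finset.Ico (n.factorization q) (ω.factorization q)).image (fun j => (q, j)) :=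
        Finset.mem_image.2 ⟨j, Finset.mem_Ico.2 ⟨hj1, hj2⟩, rfl⟩
      rw [← h3] at h4
      exact (Finset.mem_filter.1 h4).1
    -- the element of the digit set
    let T : Finset ℕ := ω.primeFactors.filter fun q => g.factorization q < ω.factorization q
    have hTp : ∀ q ∈ T, q.Prime := fun q hq => Nat.prime_of_mem_primeFactors (Finset.mem_filter.1 hq).1
    have hTD : ∀ q ∈ T, (q, g.factorization q) ∈ D := by
      intro q hq
      obtain ⟨h1, h2⟩ := Finset.mem_filter.1 hq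
      by_cases h3 : q ∈ Q
      · rw [hbad q h3]
        exact (hjj q h3).1
      · exact hDgood q h1 h3 _ (hgood q (hTp q hq) h3) h2
    obtain ⟨ε, hε, hε1⟩ := dig_mem (ω := ω) hDp T (fun q => g.factorization q) hTD
    set z : ℕ := ∑ q ∈ T, gg ω q (g.factorization q) with hz
    have hgz : Int.gcd x ω = Int.gcd (z : ℤ) ω := by
      have h0 : Int.gcd (z : ℤ) ω ≠ 0 := by
        intro h
        have := (Int.gcd_eq_zero_iff.1 h).2
        exact hω (by exact_mod_cast this)
      rw [← hg]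
      have hzω : Int.gcd (z : ℤ) ω ∣ ω := by
        have := Int.gcd_dvd_right (z : ℤ) (ω : ℤ)
        exact_mod_cast this
      have key : ∀ q e : ℕ, q.Prime → (q ^ e ∣ g ↔ q ^ e ∣ Int.gcd (z : ℤ) ω) := by
        intro q e hq
        by_cases he : e ≤ ω.factorization q
        · have h1 : q ^ e ∣ ω := (hq.pow_dvd_iff_le_factorization hω).2 he
          rw [hq.pow_dvd_iff_le_factorization hg0]
          have h2 : q ^ e ∣ Int.gcd (z : ℤ) ω ↔ q ^ e ∣ z := by
            rw [Int.gcd_natCast_natCast, Nat.dvd_gcd_iff]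
            exact ⟨fun h => h.1, fun h => ⟨h, h1⟩⟩
          rw [h2]
          by_cases hqT : q ∈ T
          · exact (sum_gg hω hq T hTp (fun q => g.factorization q) hqT he).symm
          · have h3 : q ^ e ∣ z := sum_gg' hq T hTp (fun q => g.factorization q) hqT he
            refine ⟨fun _ => h3, fun _ => ?_⟩
            by_contra h4
            push Not at h4
            refine hqT (Finset.mem_filter.2 ⟨?_, lt_of_lt_of_le h4 he⟩)
            rw [← Nat.support_factorization, Finsupp.mem_support_iff]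
            omega
        · have h1 : ¬ q ^ e ∣ ω := fun h => he ((hq.pow_dvd_iff_le_factorization hω).1 h)
          exact ⟨fun h => absurd (dvd_trans h hgω) h1, fun h => absurd (dvd_trans h hzω) h1⟩
      refine Nat.dvd_antisymm ?_ ?_
      · rw [Nat.dvd_iff_prime_pow_dvd_dvd]
        exact fun q e hq h => (key q e hq).1 h
      · rw [Nat.dvd_iff_prime_pow_dvd_dvd]
        exact fun q e hq h => (key q e hq).2 h
    obtain ⟨r, hr, hrz⟩ := mult hgz
    -- collision
    let ε0 : (x : {x // x ∈ D}) → Fin x.1.1 := fun x => ⟨0, (hDp _ x.2).pos⟩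
    have hε0 : dig ω D ε0 = 0 := by
      unfold dig
      exact Finset.sum_eq_zero fun x _ => by simp [ε0]
    -- the bad prime of `x₀`
    have hp0 : x₀.1 ∈ ω.primeFactors := by
      rw [← Nat.support_factorization, Finsupp.mem_support_iff]
      have := (hD x₀ hx₀).2
      omega
    have hq0 : x₀.1 ∈ Q := Finset.mem_filter.2 ⟨hp0, x₀.2, hx₀, hlt₀⟩
    have hT0 : x₀.1 ∈ T := by
      refine Finset.mem_filter.2 ⟨hp0, ?_⟩
      rw [hbad _ hq0]
      exact lt_of_lt_of_le (hjj _ hq0).2 (hnfac _)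
    have hr0 : r ≠ 0 := by
      intro h
      rw [h, Nat.coprime_zero_left] at hr
      rw [hr, Nat.primeFactors_one] at hp0
      exact absurd hp0 (Finset.notMem_empty _)
    have hT2 := tij hT r hr0 (by rw [hι]; exact Nat.Coprime.coprime_dvd_right hnω hr)
    have h1 : (ω : ℤ) ∣ ((r : ℤ) * a i' + dig ω D ε) - ((r : ℤ) * a i + dig ω D ε0) := by
      have e : ((r : ℤ) * a i' + dig ω D ε) - ((r : ℤ) * a i + dig ω D ε0) = (z : ℤ) - r * x := by
        rw [hε, hε0, hx]
        ring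
      rw [e]
      exact hrz
    have h2 := (hT2.1 i' i ε ε0 h1).2
    have h3 := hε1 x₀.1 hT0
    rw [h2] at h3
    exact absurd h3 (by simp [ε0])

end Pool.Agent.H52.DF
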