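import Pool.Agent.H52.DF.T2

/-!
# Digit complements: the sharp number of residues

If a tile with a digit complement meets more than `n / P` classes modulo `n`, where `P` is at most every
common prime factor of `n` and `ω / n`, then it is a complete set of residues.
-/

set_option autoImplicit false

namespace Pool.Agent.H52.DF

open Finset Polynomial

variable {ι κ : Type}

/-- two elements of the tile differ by a small multiple of `y` modulo `n` -/
theorem pigeon [Fintype ι] {n P : ℕ} (hn : n ≠ 0) {a : ι → ℤ}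
    (h : n < P * (univ.image (fun i => ((a i : ℤ) : ZMod n))).card) (y : ℤ) :
    ∃ i j, ∃ s : ℕ, 0 < s ∧ s < P ∧ (n : ℤ) ∣ (s : ℤ) * y - (a i - a j) := by
  classical
  have : NeZero n := ⟨hn⟩
  set I := univ.image (fun i => ((a i : ℤ) : ZMod n)) with hI
  have hc : Fintype.card (ZMod n) < Fintype.card (Fin P × {u // u ∈ I}) := by
    rw [ZMod.card, Fintype.card_prod, Fintype.card_fin, Fintype.card_coe]
    exact h
  obtain ⟨⟨k, u⟩, ⟨l, v⟩, hne, he⟩ := Fintype.exists_ne_map_eq_of_card_lt
    (fun p : Fin P × {u // u ∈ I} => p.2.1 - ((p.1 : ℕ) : ZMod n) * (y : ZMod n)) hc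
  have he : u.1 - ((k : ℕ) : ZMod n) * (y : ZMod n) = v.1 - ((l : ℕ) : ZMod n) * (y : ZMod n) := he
  obtain ⟨i, _, hi⟩ := Finset.mem_image.1 u.2
  obtain ⟨j, _, hj⟩ := Finset.mem_image.1 v.2
  have hkl : (k : ℕ) ≠ l := by
    intro hkl
    have h1 : k = l := Fin.ext hkl
    refine hne ?_
    rw [h1] at he
    have h2 : u.1 = v.1 := sub_left_injective he
    rw [h1, Subtype.ext h2]
  rcases lt_or_gt_of_ne hkl with h1 | h1
  · refine ⟨j, i, l - k, by omega, by have := l.2; omega, ?_⟩
    rw [← ZMod.intCast_eq_intCast_iff_dvd_sub]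
    rw [← hi, ← hj] at he
    rw [Nat.cast_sub h1.le]
    push_cast
    linear_combination -he
  · refine ⟨i, j, k - l, by omega, by have := k.2; omega, ?_⟩
    rw [← ZMod.intCast_eq_intCast_iff_dvd_sub]
    rw [← hi, ← hj] at he
    rw [Nat.cast_sub h1.le]
    push_cast
    linear_combination he

/-- a digit complement: more than `n / P` of the classes implies all classes -/
theorem dig_mainP [Fintype ι] {ω n P : ℕ} (hω : ω ≠ 0) (hn : n ≠ 0) (D : Finset (ℕ × ℕ))
    (hD : ∀ x ∈ D, x.1.Prime ∧ x.2 < ω.factorization x.1) {a : ι → ℤ} (hι : Fintype.card ι = n)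
    (hT : Til ω a (dig ω D)) (hP : ∀ q : ℕ, q.Prime → q ∣ n → q ∣ ω / n → P ≤ q)
    (hh : n < P * (univ.image (fun i => ((a i : ℤ) : ZMod n))).card) : Inj n a := by
  classical
  have hDp : ∀ x ∈ D, x.1.Prime := fun x hx => (hD x hx).1
  have hωz : NeZero ω := ⟨hω⟩
  have hcard := til_card hT
  rw [hι, dig_card] at hcard
  set m := ∏ x ∈ D, x.1 with hm
  have hm0 : m ≠ 0 := fun h => hω (by rw [← hcard, h, mul_zero])
  have hnω : n ∣ ω := ⟨m, hcard.symm⟩
  -- the numbers of digits
  have hfac : ∀ q : ℕ, q.Prime → n.factorization q + (D.filter fun x => x.1 = q).card = ω.factorization q := by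
    intro q hq
    rw [← fac_card hDp hq, ← hm, ← hcard, Nat.factorization_mul hn hm0, Finsupp.add_apply]
  by_cases hcase : ∀ x ∈ D, n.factorization x.1 ≤ x.2
  · -- all digits are multiples of `n`
    have hdiv : ∀ x ∈ D, n ∣ gg ω x.1 x.2 := by
      intro x hx
      have h1 : ordProj[x.1] n * ordCompl[x.1] n ∣ gg ω x.1 x.2 := by
        unfold gg
        rw [mul_comm]
        exact mul_dvd_mul (Nat.ordCompl_dvd_ordCompl_of_dvd hnω x.1) (pow_dvd_pow _ (hcase x hx))
      rwa [Nat.ordProj_mul_ordCompl_eq_self] at h1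
    have hdiv2 : ∀ ε, (n : ℤ) ∣ dig ω D ε := by
      intro ε
      unfold dig
      exact Finset.dvd_sum fun x _ => Dvd.dvd.mul_left (by exact_mod_cast hdiv x.1 x.2) _
    have hnz : NeZero n := ⟨hn⟩
    have hsurj : Function.Surjective (fun i => ((a i : ℤ) : ZMod n)) := by
      intro u
      obtain ⟨g, rfl⟩ := ZMod.intCast_surjective u
      obtain ⟨i, ε, h1⟩ := hT.2 g
      refine ⟨i, ?_⟩
      have h2 : (n : ℤ) ∣ (a i + dig ω D ε) - g := dvd_trans (by exact_mod_cast hnω) h1
      have h3 : (n : ℤ) ∣ a i - g := by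
        have := dvd_sub h2 (hdiv2 ε)
        have e : (a i + dig ω D ε) - g - dig ω D ε = a i - g := by ring
        rwa [e] at this
      exact ((ZMod.intCast_eq_intCast_iff_dvd_sub _ _ _).2 h3).symm
    exact ((Fintype.bijective_iff_surjective_and_card _).2 ⟨hsurj, by rw [hι, ZMod.card]⟩).1
  · -- a bad prime
    exfalso
    push Not at hcase
    obtain ⟨x₀, hx₀, hlt₀⟩ := hcase
    -- the bad primes and their digits
    let Q : Finset ℕ := ω.primeFactors.filter fun q => ∃ j, (q, j) ∈ D ∧ j < n.factorization q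
    have hQ : ∀ q ∈ Q, ∃ j, (q, j) ∈ D ∧ j < n.factorization q := fun q hq => (Finset.mem_filter.1 hq).2
    let jj : ℕ → ℕ := fun q => if h : ∃ j, (q, j) ∈ D ∧ j < n.factorization q then h.choose else 0
    have hjj : ∀ q ∈ Q, (q, jj q) ∈ D ∧ jj q < n.factorization q := by
      intro q hq
      have h := hQ q hq
      have e : jj q = h.choose := dif_pos h
      rw [e]
      exact h.choose_spec
    have hQp : ∀ q ∈ Q, q.Prime := fun q hq => Nat.prime_of_mem_primeFactors (Finset.mem_filter.1 hq).1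
    set y : ℕ := ∑ q ∈ Q, gg ω q (jj q) with hy
    obtain ⟨i, i', s, hs0, hsP, hii⟩ := pigeon hn hh (y : ℤ)
    have hsQ : ∀ q ∈ Q, Nat.Coprime s q := by
      intro q hq
      have hqp := hQp q hq
      obtain ⟨h1, h2⟩ := hjj q hq
      have hqn : q ∣ n := (hqp.dvd_iff_one_le_factorization hn).2 (by omega)
      have hqm : q ∣ ω / n := by
        have e : ω / n = m := by rw [← hcard, Nat.mul_div_cancel_left _ (Nat.pos_of_ne_zero hn)]
        rw [e, hm]
        exact dvd_prod_of_mem (fun x : ℕ × ℕ => x.1) h1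
      have h3 := hP q hqp hqn hqm
      refine Nat.Coprime.symm ((Nat.Prime.coprime_iff_not_dvd hqp).2 fun h4 => ?_)
      have := Nat.le_of_dvd hs0 h4
      omega
    set x : ℤ := a i - a i' with hx
    set g := Int.gcd x ω with hg
    have hgω : g ∣ ω := by
      have := Int.gcd_dvd_right x (ω : ℤ)
      exact_mod_cast this
    have hg0 : g ≠ 0 := fun h => hω (Nat.eq_zero_of_zero_dvd (h ▸ hgω))
    have hnfac : ∀ q, n.factorization q ≤ ω.factorization q := fun q => (Nat.factorization_le_iff_dvd hn hω).2 hnω q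
    have hgfac : ∀ q, g.factorization q ≤ ω.factorization q := fun q => (Nat.factorization_le_iff_dvd hg0 hω).2 hgω q
    -- divisibility of `x`
    have hxdvd : ∀ q e : ℕ, q.Prime → e ≤ ω.factorization q → (((q ^ e : ℕ) : ℤ) ∣ x ↔ e ≤ g.factorization q) := by
      intro q e hq he
      rw [← hq.pow_dvd_iff_le_factorization hg0]
      have h1 : q ^ e ∣ ω := (hq.pow_dvd_iff_le_factorization hω).2 he
      constructor
      · intro h
        exact Int.dvd_gcd h (by exact_mod_cast h1)
      · intro h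
        exact dvd_trans (by exact_mod_cast h) (Int.gcd_dvd_left x (ω : ℤ))
    have hxy : ∀ q e : ℕ, q.Prime → e ≤ n.factorization q → (((q ^ e : ℕ) : ℤ) ∣ x ↔ q ^ e ∣ y) := by
      intro q e hq he
      have h1 : q ^ e ∣ n := (hq.pow_dvd_iff_le_factorization hn).2 he
      have h2 : ((q ^ e : ℕ) : ℤ) ∣ (s : ℤ) * (y : ℤ) - x := dvd_trans (by exact_mod_cast h1) hii
      have h3 : ((q ^ e : ℕ) : ℤ) ∣ x ↔ ((q ^ e : ℕ) : ℤ) ∣ (s : ℤ) * (y : ℤ) := by
        constructor
        · intro h
          have := dvd_add h2 h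
          rwa [sub_add_cancel] at this
        · intro h
          have := dvd_sub h h2
          rwa [sub_sub_cancel] at this
      have h4 : ((q ^ e : ℕ) : ℤ) ∣ (s : ℤ) * (y : ℤ) ↔ q ^ e ∣ s * y := by
        rw [← Nat.cast_mul]
        exact Int.natCast_dvd_natCast
      rw [h3, h4]
      by_cases hqQ : q ∈ Q
      · exact (Nat.Coprime.pow_left e (hsQ q hqQ).symm).dvd_mul_left
      · have h5 : q ^ e ∣ y := dvd_trans (pow_dvd_pow q he) (sum_gg' hq Q hQp jj hqQ (hnfac q))
        exact ⟨fun _ => h5, fun _ => Dvd.dvd.mul_left h5 s⟩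
    -- the exponents
    have hbad : ∀ q ∈ Q, g.factorization q = jj q := by
      intro q hq
      have hqp := hQp q hq
      obtain ⟨h1, h2⟩ := hjj q hq
      have h3 := (hxy q (jj q) hqp h2.le).2 ((sum_gg hω hqp Q hQp jj hq (h2.le.trans (hnfac q))).2 le_rfl)
      have h4 := (hxdvd q (jj q) hqp (h2.le.trans (hnfac q))).1 h3
      have h5 : ¬ jj q + 1 ≤ g.factorization q := by
        intro h6
        have h7 := (hxdvd q (jj q + 1) hqp (Nat.succ_le_of_lt h2 |>.trans (hnfac q))).2 h6
        have h8 := (hxy q (jj q + 1) hqp (Nat.succ_le_of_lt h2)).1 h7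
        have h9 := (sum_gg hω hqp Q hQp jj hq (Nat.succ_le_of_lt h2 |>.trans (hnfac q))).1 h8
        omega
      omega
    have hgood : ∀ q : ℕ, q.Prime → q ∉ Q → n.factorization q ≤ g.factorization q := by
      intro q hqp hq
      exact (hxdvd q _ hqp (hnfac q)).1 ((hxy q _ hqp le_rfl).2 (sum_gg' hqp Q hQp jj hq (hnfac q)))
    -- the digits of the good primes
    have hDgood : ∀ q ∈ ω.primeFactors, q ∉ Q → ∀ j, n.factorization q ≤ j → j < ω.factorization q → (q, j) ∈ D := by
      intro q hq hqQ j hj1 hj2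
      have hqp := Nat.prime_of_mem_primeFactors hq
      have h1 : (D.filter fun x => x.1 = q) ⊆ (Finset.Ico (n.factorization q) (ω.factorization q)).image (fun j => (q, j)) := by
        rintro ⟨q', j'⟩ hx
        rw [Finset.mem_filter] at hx
        obtain ⟨hx1, hx2⟩ := hx
        have hx2 : q' = q := hx2
        subst hx2
        rw [Finset.mem_image]
        refine ⟨j', Finset.mem_Ico.2 ⟨?_, (hD _ hx1).2⟩, rfl⟩
        by_contra h2
        push Not at h2
        exact hqQ (Finset.mem_filter.2 ⟨hq, j', hx1, h2⟩)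
      have h2 : ((Finset.Ico (n.factorization q) (ω.factorization q)).image (fun j => (q, j))).card ≤
          (D.filter fun x => x.1 = q).card := by
        refine Finset.card_image_le.trans ?_
        rw [Nat.card_Ico]
        have := hfac q hqp
        omega
      have h3 := Finset.eq_of_subset_of_card_le h1 h2
      have h4 : (q, j) ∈ (Finset.Ico (n.factorization q) (ω.factorization q)).image (fun j => (q, j)) :=
        Finset.mem_image.2 ⟨j, Finset.mem_Ico.2 ⟨hj1, hj2⟩, rfl⟩
      rw [← h3] at h4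
      exact (Finset.mem_filter.1 h4).1
    -- the element of the digit set
    let T : Finset ℕ := ω.primeFactors.filter fun q => g.factorization q < ω.factorization q
    have hTp : ∀ q ∈ T, q.Prime := fun q hq => Nat.prime_of_mem_primeFactors (Finset.mem_filter.1 hq).1
    have hTD : ∀ q ∈ T, (q, g.factorization q) ∈ D := by
      intro q hq
      obtain ⟨h1, h2⟩ := Finset.mem_filter.1 hq
      by_cases h3 : q ∈ Q
      · rw [hbad q h3]
        exact (hjj q h3).1
      · exact hDgood q h1 h3 _ (hgood q (hTp q hq) h3) h2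
    obtain ⟨ε, hε, hε1⟩ := dig_mem (ω := ω) hDp T (fun q => g.factorization q) hTD
    set z : ℕ := ∑ q ∈ T, gg ω q (g.factorization q) with hz
    have hgz : Int.gcd x ω = Int.gcd (z : ℤ) ω := by
      have h0 : Int.gcd (z : ℤ) ω ≠ 0 := by
        intro h
        have := (Int.gcd_eq_zero_iff.1 h).2
        exact hω (by exact_mod_cast this)
      rw [← hg]
      have hzω : Int.gcd (z : ℤ) ω ∣ ω := by
        have := Int.gcd_dvd_right (z : ℤ) (ω : ℤ)
        exact_mod_cast this
      have key : ∀ q e : ℕ, q.Prime → (q ^ e ∣ g ↔ q ^ e ∣ Int.gcd (z : ℤ) ω) := by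
        intro q e hq
        by_cases he : e ≤ ω.factorization q
        · have h1 : q ^ e ∣ ω := (hq.pow_dvd_iff_le_factorization hω).2 he
          rw [hq.pow_dvd_iff_le_factorization hg0]
          have h2 : q ^ e ∣ Int.gcd (z : ℤ) ω ↔ q ^ e ∣ z := by
            rw [Int.gcd_natCast_natCast, Nat.dvd_gcd_iff]
            exact ⟨fun h => h.1, fun h => ⟨h, h1⟩⟩
          rw [h2]
          by_cases hqT : q ∈ T
          · exact (sum_gg hω hq T hTp (fun q => g.factorization q) hqT he).symm
          · have h3 : q ^ e ∣ z := sum_gg' hq T hTp (fun q => g.factorization q) hqT he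
            refine ⟨fun _ => h3, fun _ => ?_⟩
            by_contra h4
            push Not at h4
            refine hqT (Finset.mem_filter.2 ⟨?_, lt_of_lt_of_le h4 he⟩)
            rw [← Nat.support_factorization, Finsupp.mem_support_iff]
            omega
        · have h1 : ¬ q ^ e ∣ ω := fun h => he ((hq.pow_dvd_iff_le_factorization hω).1 h)
          exact ⟨fun h => absurd (dvd_trans h hgω) h1, fun h => absurd (dvd_trans h hzω) h1⟩
      refine Nat.dvd_antisymm ?_ ?_
      · rw [Nat.dvd_iff_prime_pow_dvd_dvd]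
        exact fun q e hq h => (key q e hq).1 h
      · rw [Nat.dvd_iff_prime_pow_dvd_dvd]
        exact fun q e hq h => (key q e hq).2 h
    obtain ⟨r, hr, hrz⟩ := mult hgz
    -- collision
    let ε0 : (x : {x // x ∈ D}) → Fin x.1.1 := fun x => ⟨0, (hDp _ x.2).pos⟩
    have hε0 : dig ω D ε0 = 0 := by
      unfold dig
      exact Finset.sum_eq_zero fun x _ => by simp [ε0]
    -- the bad prime of `x₀`
    have hp0 : x₀.1 ∈ ω.primeFactors := by
      rw [← Nat.support_factorization, Finsupp.mem_support_iff]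
      have := (hD x₀ hx₀).2
      omega
    have hq0 : x₀.1 ∈ Q := Finset.mem_filter.2 ⟨hp0, x₀.2, hx₀, hlt₀⟩
    have hT0 : x₀.1 ∈ T := by
      refine Finset.mem_filter.2 ⟨hp0, ?_⟩
      rw [hbad _ hq0]
      exact lt_of_lt_of_le (hjj _ hq0).2 (hnfac _)
    have hr0 : r ≠ 0 := by
      intro h
      rw [h, Nat.coprime_zero_left] at hr
      rw [hr, Nat.primeFactors_one] at hp0
      exact absurd hp0 (Finset.notMem_empty _)
    have hT2 := tij hT r hr0 (by rw [hι]; exact Nat.Coprime.coprime_dvd_right hnω hr)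
    have h1 : (ω : ℤ) ∣ ((r : ℤ) * a i' + dig ω D ε) - ((r : ℤ) * a i + dig ω D ε0) := by
      have e : ((r : ℤ) * a i' + dig ω D ε) - ((r : ℤ) * a i + dig ω D ε0) = (z : ℤ) - r * x := by
        rw [hε, hε0, hx]
        ring
      rw [e]
      exact hrz
    have h2 := (hT2.1 i' i ε ε0 h1).2
    have h3 := hε1 x₀.1 hT0
    rw [h2] at h3
    exact absurd h3 (by simp [ε0])

/-- (T2) and more than `n / P` of the classes -/
theorem t2_mainP [Fintype ι] [Fintype κ] {ω n P : ℕ} (hω : ω ≠ 0) (hn : n ≠ 0) {a : ι → ℕ} {c : κ → ℕ}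
    (hι : Fintype.card ι = n) (h : Til ω (fun i => (a i : ℤ)) (fun k => (c k : ℤ)))
    (hT2 : ∀ d : ℕ, d ∣ ω → d ≠ 1 → (∀ q : ℕ, q.Prime → q ∣ d → cyclotomic (q ^ d.factorization q) ℤ ∣ msk a) →
      cyclotomic d ℤ ∣ msk a) (hP : ∀ q : ℕ, q.Prime → q ∣ n → q ∣ ω / n → P ≤ q)
    (hh : n < P * (univ.image (fun i => ((a i : ℤ) : ZMod n))).card) : Inj n (fun i => (a i : ℤ)) := by
  obtain ⟨D, hD, hT⟩ := t2_til hω h hT2
  exact dig_mainP hω hn D hD hι hT hP hh

end Pool.Agent.H52.DF
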