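import Mathlib

/-!
# Tilings of cyclic groups: the number of residues of a tile modulo its size

Used by `Pool/Agent/Results/MP_3e256f_co/TileConditionT2.lean` (by helper52).
-/

set_option autoImplicit false

namespace Pool.Agent.H52.DF

open Finset

variable {ι κ : Type}

/-- `a i + c k` represents every class modulo `N` exactly once -/
def Til (N : ℕ) (a : ι → ℤ) (c : κ → ℤ) : Prop :=
  (∀ i j k l, (N : ℤ) ∣ (a i + c k) - (a j + c l) → i = j ∧ k = l) ∧
  ∀ g : ℤ, ∃ i k, (N : ℤ) ∣ (a i + c k) - g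

theorem Til.swap {N : ℕ} {a : ι → ℤ} {c : κ → ℤ} (h : Til N a c) : Til N c a := by
  constructor
  · intro k l i j hd
    have := h.1 i j k l (by rw [add_comm (a i), add_comm (a j)]; exact hd)
    exact ⟨this.2, this.1⟩
  · intro g
    obtain ⟨i, k, hd⟩ := h.2 g
    exact ⟨k, i, by rw [add_comm]; exact hd⟩

theorem til_iff {N : ℕ} {a : ι → ℤ} {c : κ → ℤ} :
    Til N a c ↔ Function.Bijective (fun p : ι × κ => ((a p.1 + c p.2 : ℤ) : ZMod N)) := by
  constructor
  · intro h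
    constructor
    · rintro ⟨i, k⟩ ⟨j, l⟩ he
      have he : ((a i + c k : ℤ) : ZMod N) = ((a j + c l : ℤ) : ZMod N) := he
      rw [ZMod.intCast_eq_intCast_iff_dvd_sub] at he
      have := h.1 j i l k he
      rw [this.1, this.2]
    · intro g
      obtain ⟨z, rfl⟩ := ZMod.intCast_surjective g
      obtain ⟨i, k, hd⟩ := h.2 z
      refine ⟨(i, k), ?_⟩
      exact ((ZMod.intCast_eq_intCast_iff_dvd_sub _ _ _).2 hd).symm
  · intro h
    constructor
    · intro i j k l hd
      have he : ((a j + c l : ℤ) : ZMod N) = ((a i + c k : ℤ) : ZMod N) :=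
        (ZMod.intCast_eq_intCast_iff_dvd_sub _ _ _).2 hd
      have := h.1 (a₁ := (i, k)) (a₂ := (j, l)) he.symm
      rw [Prod.mk.injEq] at this
      exact this
    · intro g
      obtain ⟨⟨i, k⟩, he⟩ := h.2 (g : ZMod N)
      have he : ((a i + c k : ℤ) : ZMod N) = (g : ZMod N) := he
      exact ⟨i, k, (ZMod.intCast_eq_intCast_iff_dvd_sub _ _ _).1 he.symm⟩

theorem til_card [Fintype ι] [Fintype κ] {N : ℕ} [NeZero N] {a : ι → ℤ} {c : κ → ℤ} (h : Til N a c) :
    Fintype.card ι * Fintype.card κ = N := by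
  have := Fintype.card_of_bijective (til_iff.1 h)
  rwa [Fintype.card_prod, ZMod.card] at this

/-- multiplication of one factor by a prime which does not divide its size -/
theorem tij_prime [Fintype ι] [Fintype κ] {N q : ℕ} [NeZero N] (hq : q.Prime) {a : ι → ℤ} {c : κ → ℤ}
    (hn : ¬ q ∣ Fintype.card ι) (h : Til N a c) : Til N (fun i => (q : ℤ) * a i) c := by
  classical
  have : Fact q.Prime := ⟨hq⟩
  have hchar : CharP (AddMonoidAlgebra (ZMod q) (ZMod N)) q :=
    charP_of_injective_algebraMap (algebraMap (ZMod q) (AddMonoidAlgebra (ZMod q) (ZMod N))).injective q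
  let s : ZMod N → AddMonoidAlgebra (ZMod q) (ZMod N) := fun x => AddMonoidAlgebra.single x 1
  have hs : ∀ x y, s x * s y = s (x + y) := by
    intro x y
    show AddMonoidAlgebra.single x 1 * AddMonoidAlgebra.single y 1 = _
    rw [AddMonoidAlgebra.single_mul_single, mul_one]
  have hsp : ∀ x, s x ^ q = s (q • x) := by
    intro x
    show AddMonoidAlgebra.single x 1 ^ q = _
    rw [AddMonoidAlgebra.single_pow, one_pow]
  set S : AddMonoidAlgebra (ZMod q) (ZMod N) := ∑ x : ZMod N, s x with hS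
  set f : AddMonoidAlgebra (ZMod q) (ZMod N) := ∑ i : ι, s (a i : ZMod N) with hf
  set g : AddMonoidAlgebra (ZMod q) (ZMod N) := ∑ k : κ, s (c k : ZMod N) with hg
  have hfg : f * g = S := by
    rw [hf, hg, Finset.sum_mul_sum, ← Fintype.sum_prod_type', hS,
      ← (til_iff.1 h).sum_comp s]
    refine Finset.sum_congr rfl fun p _ => ?_
    rw [hs]
    push_cast
    rfl
  have hsS : ∀ x, s x * S = S := by
    intro x
    rw [hS, Finset.mul_sum]
    rw [Finset.sum_congr rfl fun y _ => hs x y]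
    exact Equiv.sum_comp (Equiv.addLeft x) s
  have hfS : f * S = (Fintype.card ι : AddMonoidAlgebra (ZMod q) (ZMod N)) * S := by
    rw [hf, Finset.sum_mul, Finset.sum_congr rfl fun i _ => hsS _, Finset.sum_const, Finset.card_univ, nsmul_eq_mul]
  have hfp : ∀ r : ℕ, f ^ r * S = ((Fintype.card ι : AddMonoidAlgebra (ZMod q) (ZMod N))) ^ r * S := by
    intro r
    induction r with
    | zero => rw [pow_zero, pow_zero]
    | succ r ih => rw [pow_succ', mul_assoc, ih, mul_left_comm, hfS]; ring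
  have hq1 : q = q - 1 + 1 := by have := hq.one_lt; omega
  have hfq : f ^ q * g = S := by
    have h1 : f ^ q * g = f ^ (q - 1) * S := by
      rw [← hfg, ← mul_assoc, ← pow_succ, ← hq1]
    rw [h1, hfp]
    have h2 : ((Fintype.card ι : ZMod q)) ^ (q - 1) = 1 := by
      apply ZMod.pow_card_sub_one_eq_one
      intro h3
      exact hn ((ZMod.natCast_eq_zero_iff _ _).1 h3)
    have h3 : ((Fintype.card ι : AddMonoidAlgebra (ZMod q) (ZMod N))) ^ (q - 1) = 1 := by
      have := congrArg (algebraMap (ZMod q) (AddMonoidAlgebra (ZMod q) (ZMod N))) h2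
      rwa [map_pow, map_natCast, map_one] at this
    rw [h3, one_mul]
  have hfq2 : f ^ q = ∑ i : ι, s (q • (a i : ZMod N)) := by
    rw [hf, sum_pow_char]
    exact Finset.sum_congr rfl fun i _ => hsp _
  have hsum : ∑ p : ι × κ, s (((q : ℤ) * a p.1 + c p.2 : ℤ) : ZMod N) = S := by
    rw [← hfq, hfq2, hg, Finset.sum_mul_sum, ← Fintype.sum_prod_type']
    refine Finset.sum_congr rfl fun p _ => ?_
    rw [hs, nsmul_eq_mul]
    push_cast
    rfl
  rw [til_iff]
  have hcard : Fintype.card (ι × κ) = Fintype.card (ZMod N) := Fintype.card_of_bijective (til_iff.1 h)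
  rw [Fintype.bijective_iff_surjective_and_card]
  refine ⟨?_, hcard⟩
  intro y
  by_contra hy
  push Not at hy
  have h1 := congrArg (fun F : AddMonoidAlgebra (ZMod q) (ZMod N) => F.coeff y) hsum
  have hcs : ∀ (T : Finset (ι × κ)) (F : ι × κ → ZMod N), (∑ p ∈ T, s (F p)).coeff y = ∑ p ∈ T, (s (F p)).coeff y := by
    intro T F
    induction T using Finset.induction_on with
    | empty => simp
    | insert p T hp ih => rw [Finset.sum_insert hp, Finset.sum_insert hp, ← ih]; rfl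
  have hcs2 : ∀ (T : Finset (ZMod N)), (∑ p ∈ T, s p).coeff y = ∑ p ∈ T, (s p).coeff y := by
    intro T
    induction T using Finset.induction_on with
    | empty => simp
    | insert p T hp ih => rw [Finset.sum_insert hp, Finset.sum_insert hp, ← ih]; rfl
  have hc1 : ∀ x, (s x).coeff y = if x = y then 1 else 0 := by
    intro x
    show (AddMonoidAlgebra.single x (1 : ZMod q)).coeff y = _
    exact Finsupp.single_apply
  have h1 : (∑ p : ι × κ, s (((q : ℤ) * a p.1 + c p.2 : ℤ) : ZMod N)).coeff y = S.coeff y := h1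
  rw [hcs univ (fun p => (((q : ℤ) * a p.1 + c p.2 : ℤ) : ZMod N)), hS, hcs2] at h1
  rw [Finset.sum_eq_zero (fun p _ => by rw [hc1, if_neg (hy p)]), Finset.sum_congr rfl fun x _ => hc1 x,
    Finset.sum_ite_eq' univ y, if_pos (Finset.mem_univ _)] at h1
  exact zero_ne_one h1

/-- Tijdeman: multiplication of one factor by a number coprime to its size -/
theorem tij [Fintype ι] [Fintype κ] {N : ℕ} [NeZero N] {a : ι → ℤ} {c : κ → ℤ} (h : Til N a c) (r : ℕ) :
    r ≠ 0 → Nat.Coprime r (Fintype.card ι) → Til N (fun i => (r : ℤ) * a i) c := by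
  induction r using Nat.recOnMul generalizing a with
  | zero => intro h0; exact absurd rfl h0
  | one => intro _ _; simpa using h
  | prime p hp =>
    intro _ hc
    exact tij_prime hp (fun hd => by
      have := Nat.Coprime.eq_one_of_dvd hc hd
      exact hp.one_lt.ne' this) h
  | mul x y hx hy =>
    intro h0 hc
    have h1 := hx h (left_ne_zero_of_mul h0) (Nat.Coprime.coprime_mul_right hc)
    have h2 := hy h1 (right_ne_zero_of_mul h0) (Nat.Coprime.coprime_mul_left hc)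
    have : (fun i => ((x * y : ℕ) : ℤ) * a i) = fun i => (y : ℤ) * ((x : ℤ) * a i) := by
      funext i
      push_cast
      ring
    rw [this]
    exact h2

/-! ### Reductions -/

/-- the family meets more than `n / 2` classes modulo `n` -/
def Half [Fintype ι] (n : ℕ) (a : ι → ℤ) : Prop :=
  n < 2 * (univ.image (fun i => ((a i : ℤ) : ZMod n))).card

/-- the family meets every class at most once -/
def Inj (n : ℕ) (a : ι → ℤ) : Prop := Function.Injective (fun i => ((a i : ℤ) : ZMod n))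

/-- if one complement of `c` meets more than half of the classes then all complements are injective modulo `n` -/
def HH [Fintype κ] (n : ℕ) (c : κ → ℤ) : Prop :=
  (∃ (ι : Type) (_ : Fintype ι) (a : ι → ℤ), Til (n * Fintype.card κ) a c ∧ Half n a) →
  ∀ (ι : Type) (_ : Fintype ι) (a : ι → ℤ), Til (n * Fintype.card κ) a c → Inj n a

theorem card_eq [Fintype ι] [Fintype κ] {n : ℕ} (hn : n ≠ 0) (k0 : κ) {a : ι → ℤ} {c : κ → ℤ}
    (h : Til (n * Fintype.card κ) a c) : Fintype.card ι = n := by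
  have hk : 0 < Fintype.card κ := Fintype.card_pos_iff.2 ⟨k0⟩
  have : NeZero (n * Fintype.card κ) := ⟨Nat.mul_ne_zero hn hk.ne'⟩
  have h1 := til_card h
  exact Nat.eq_of_mul_eq_mul_right hk h1

theorem kill_til [Fintype ι] [Fintype κ] {N' t : ℕ} {a : ι → ℤ} {c : κ → ℤ} (hN : N' * t ≠ 0)
    (h : Til (N' * t) a c) (hc : Nat.Coprime t (Fintype.card ι)) (k0 : κ) :
    Til N' a (fun k : {k // (t : ℤ) ∣ c k - c k0} => (c k.1 - c k0) / t) := by
  have ht : t ≠ 0 := right_ne_zero_of_mul hN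
  have htZ : (t : ℤ) ≠ 0 := by exact_mod_cast ht
  have : NeZero (N' * t) := ⟨hN⟩
  have h' := tij h t ht hc
  have ek : ∀ k : {k // (t : ℤ) ∣ c k - c k0}, (t : ℤ) * ((c k.1 - c k0) / t) = c k.1 - c k0 := fun k =>
    Int.mul_ediv_cancel' k.2
  constructor
  · intro i j k l hd
    have h1 : ((N' * t : ℕ) : ℤ) ∣ ((t : ℤ) * a i + c k.1) - ((t : ℤ) * a j + c l.1) := by
      have e : ((t : ℤ) * a i + c k.1) - ((t : ℤ) * a j + c l.1) =
          ((a i + (c k.1 - c k0) / t) - (a j + (c l.1 - c k0) / t)) * t := by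
        linear_combination ek l - ek k
      rw [e]
      push_cast
      exact mul_dvd_mul_right hd _
    have h2 := h'.1 i j k.1 l.1 h1
    exact ⟨h2.1, Subtype.ext h2.2⟩
  · intro g
    obtain ⟨i, k, hd⟩ := h'.2 ((t : ℤ) * g + c k0)
    have h1 : (t : ℤ) ∣ c k - c k0 := by
      have h2 : (t : ℤ) ∣ ((t : ℤ) * a i + c k) - ((t : ℤ) * g + c k0) :=
        dvd_trans ⟨(N' : ℤ), by push_cast; ring⟩ hd
      have h3 : (t : ℤ) ∣ (t : ℤ) * (a i - g) := Dvd.intro _ rfl
      have e : c k - c k0 = (((t : ℤ) * a i + c k) - ((t : ℤ) * g + c k0)) - (t : ℤ) * (a i - g) := by ring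
      rw [e]
      exact dvd_sub h2 h3
    refine ⟨i, ⟨k, h1⟩, ?_⟩
    have e := ek ⟨k, h1⟩
    have h4 : (N' : ℤ) * t ∣ ((a i + (c k - c k0) / t) - g) * t := by
      have e2 : ((a i + (c k - c k0) / t) - g) * t = ((t : ℤ) * a i + c k) - ((t : ℤ) * g + c k0) := by
        linear_combination e
      rw [e2]
      exact_mod_cast hd
    exact (mul_dvd_mul_iff_right htZ).1 h4

theorem kill_HH [Fintype κ] {n : ℕ} (hn : n ≠ 0) (c : κ → ℤ) (k0 : κ) {t m' : ℕ}
    (hm : Fintype.card κ = m' * t) (hc : Nat.Coprime t n)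
    (hH : Fintype.card {k // (t : ℤ) ∣ c k - c k0} = m' →
      HH n (fun k : {k // (t : ℤ) ∣ c k - c k0} => (c k.1 - c k0) / t)) : HH n c := by
  have hk : 0 < Fintype.card κ := Fintype.card_pos_iff.2 ⟨k0⟩
  have key : ∀ (ι : Type) (_ : Fintype ι) (a : ι → ℤ), Til (n * Fintype.card κ) a c →
      Fintype.card {k // (t : ℤ) ∣ c k - c k0} = m' ∧
      Til (n * Fintype.card {k // (t : ℤ) ∣ c k - c k0}) a
        (fun k : {k // (t : ℤ) ∣ c k - c k0} => (c k.1 - c k0) / t) := by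
    intro ι _ a h
    have hι := card_eq hn k0 h
    rw [hm, ← mul_assoc] at h
    have hN : n * m' * t ≠ 0 := by
      rw [mul_assoc, ← hm]
      exact Nat.mul_ne_zero hn hk.ne'
    have h1 := kill_til hN h (by rw [hι]; exact hc) k0
    have : NeZero (n * m') := ⟨left_ne_zero_of_mul hN⟩
    have h2 := til_card h1
    rw [hι] at h2
    have h3 := Nat.eq_of_mul_eq_mul_left (Nat.pos_of_ne_zero hn) h2
    refine ⟨h3, ?_⟩
    rw [h3]
    exact h1
  rintro ⟨ι, hι, a, h, hh⟩ ι' hι' a' h'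
  obtain ⟨h1, h2⟩ := key ι hι a h
  exact hH h1 ⟨ι, hι, a, h2, hh⟩ ι' hι' a' (key ι' hι' a' h').2

theorem split_til [Fintype ι] [Fintype κ] {N' s : ℕ} (hs : s ≠ 0) {a : ι → ℤ} {c c' : κ → ℤ} {c0 : ℤ}
    (h : Til (s * N') a c) (e : ∀ k, c k = c0 + s * c' k) {u : ℤ} (hu0 : 0 ≤ u) (hus : u < s) :
    Til N' (fun i : {i // (a i + c0) % (s : ℤ) = u} => (a i.1 + c0) / s) c' := by
  have hsZ : (s : ℤ) ≠ 0 := by exact_mod_cast hs
  have eb : ∀ i : {i // (a i + c0) % (s : ℤ) = u}, (s : ℤ) * ((a i.1 + c0) / s) + u = a i.1 + c0 := fun i => by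
    have h1 := Int.mul_ediv_add_emod (a i.1 + c0) s
    rw [i.2] at h1
    exact h1
  constructor
  · intro i j k l hd
    have h1 : ((s * N' : ℕ) : ℤ) ∣ (a i.1 + c k) - (a j.1 + c l) := by
      have e2 : (a i.1 + c k) - (a j.1 + c l) =
          s * (((a i.1 + c0) / s + c' k) - ((a j.1 + c0) / s + c' l)) := by
        rw [e k, e l]
        linear_combination eb j - eb i
      rw [e2]
      push_cast
      exact mul_dvd_mul_left _ hd
    have h2 := h.1 i.1 j.1 k l h1
    exact ⟨Subtype.ext h2.1, h2.2⟩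
  · intro g
    obtain ⟨i, k, hd⟩ := h.2 ((s : ℤ) * g + u)
    have h1 : (a i + c0) % (s : ℤ) = u := by
      have h2 : (s : ℤ) ∣ (a i + c k) - ((s : ℤ) * g + u) := dvd_trans ⟨(N' : ℤ), by push_cast; ring⟩ hd
      have h3 : (s : ℤ) ∣ (a i + c0) - u := by
        have e3 : (a i + c0) - u = ((a i + c k) - ((s : ℤ) * g + u)) + s * (g - c' k) := by
          rw [e k]
          ring
        rw [e3]
        exact dvd_add h2 (Dvd.intro _ rfl)
      have h4 := (Int.emod_emod_of_dvd (a i + c0) (dvd_refl (s : ℤ)))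
      have h5 : (a i + c0) % (s : ℤ) = u % s := (Int.emod_eq_emod_iff_emod_sub_eq_zero).2 (Int.emod_eq_zero_of_dvd h3)
      rw [h5, Int.emod_eq_of_lt hu0 hus]
    refine ⟨⟨i, h1⟩, k, ?_⟩
    have h4 : (s : ℤ) * N' ∣ s * (((a i + c0) / s + c' k) - g) := by
      have e2 : (s : ℤ) * (((a i + c0) / s + c' k) - g) = (a i + c k) - ((s : ℤ) * g + u) := by
        rw [e k]
        linear_combination eb ⟨i, h1⟩
      rw [e2]
      exact_mod_cast hd
    exact (mul_dvd_mul_iff_left hsZ).1 h4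

theorem split_half [Fintype ι] {n' s : ℕ} (hs : s ≠ 0) (hn' : n' ≠ 0) {a : ι → ℤ} {c0 : ℤ} (h : Half (s * n') a) :
    ∃ u : ℕ, u < s ∧ Half n' (fun i : {i // (a i + c0) % (s : ℤ) = (u : ℤ)} => (a i.1 + c0) / s) := by
  classical
  by_contra hcon
  push Not at hcon
  have : NeZero n' := ⟨hn'⟩
  have hsZ : (0 : ℤ) < s := by exact_mod_cast Nat.pos_of_ne_zero hs
  let J : ℕ → Finset (ZMod n') := fun u =>
    univ.image (fun i : {i // (a i + c0) % (s : ℤ) = (u : ℤ)} => (((a i.1 + c0) / s : ℤ) : ZMod n'))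
  have hJ : ∀ u < s, 2 * (J u).card ≤ n' := by
    intro u hu
    have := hcon u hu
    unfold Half at this
    exact not_lt.1 this
  have hsub : univ.image (fun i => ((a i : ℤ) : ZMod (s * n'))) ⊆
      (range s).biUnion (fun u => (J u).image (fun x : ZMod n' => (((s : ℤ) * (x.val : ℤ) + u - c0 : ℤ) : ZMod (s * n')))) := by
    intro z hz
    obtain ⟨i, _, rfl⟩ := Finset.mem_image.1 hz
    have hu0 := Int.emod_nonneg (a i + c0) hsZ.ne'
    have hu1 := Int.emod_lt_of_pos (a i + c0) hsZ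
    obtain ⟨u, hu⟩ := Int.eq_ofNat_of_zero_le hu0
    rw [Finset.mem_biUnion]
    refine ⟨u, Finset.mem_range.2 (by rw [hu] at hu1; exact_mod_cast hu1), ?_⟩
    rw [Finset.mem_image]
    refine ⟨(((a i + c0) / s : ℤ) : ZMod n'), Finset.mem_image.2 ⟨⟨i, hu⟩, Finset.mem_univ _, rfl⟩, ?_⟩
    symm
    rw [ZMod.intCast_eq_intCast_iff_dvd_sub]
    have h1 := Int.mul_ediv_add_emod (a i + c0) s
    rw [hu] at h1
    have h2 : (n' : ℤ) ∣ (((((a i + c0) / s : ℤ) : ZMod n').val : ℤ)) - (a i + c0) / s := by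
      rw [← ZMod.intCast_eq_intCast_iff_dvd_sub]
      push_cast
      rw [ZMod.natCast_zmod_val]
    have e : (s : ℤ) * (((((a i + c0) / s : ℤ) : ZMod n').val : ℤ)) + u - c0 - a i =
        s * ((((((a i + c0) / s : ℤ) : ZMod n').val : ℤ)) - (a i + c0) / s) := by
      linear_combination h1
    rw [e]
    push_cast
    exact mul_dvd_mul_left _ h2
  have h1 := Finset.card_le_card hsub
  have h2 := h1.trans Finset.card_biUnion_le
  have h3 : ∑ u ∈ range s, ((J u).image (fun x : ZMod n' => (((s : ℤ) * (x.val : ℤ) + u - c0 : ℤ) : ZMod (s * n')))).card ≤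
      ∑ u ∈ range s, (J u).card := Finset.sum_le_sum fun u _ => Finset.card_image_le
  have h4 : 2 * ∑ u ∈ range s, (J u).card ≤ s * n' := by
    rw [Finset.mul_sum]
    calc ∑ u ∈ range s, 2 * (J u).card ≤ ∑ _u ∈ range s, n' := Finset.sum_le_sum fun u hu => hJ u (Finset.mem_range.1 hu)
      _ = s * n' := by rw [Finset.sum_const, Finset.card_range, smul_eq_mul]
  unfold Half at h
  omega

theorem split_HH [Fintype κ] {n' s : ℕ} (hs : s ≠ 0) (hn' : n' ≠ 0) {c c' : κ → ℤ} {c0 : ℤ}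
    (e : ∀ k, c k = c0 + s * c' k) (hH : HH n' c') : HH (s * n') c := by
  classical
  have hsZ : (0 : ℤ) < s := by exact_mod_cast Nat.pos_of_ne_zero hs
  rintro ⟨ι, hι, a, h, hh⟩ ι' hι' a' h'
  rw [mul_assoc] at h h'
  obtain ⟨u, hu, hhu⟩ := split_half hs hn' (c0 := c0) hh
  have h1 := split_til hs h e (u := (u : ℤ)) (by positivity) (by exact_mod_cast hu)
  have hH' := hH ⟨_, inferInstance, _, h1, hhu⟩
  intro i j hij
  have hij : ((a' i : ℤ) : ZMod (s * n')) = ((a' j : ℤ) : ZMod (s * n')) := hij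
  rw [ZMod.intCast_eq_intCast_iff_dvd_sub] at hij
  have hd : (s : ℤ) ∣ a' j - a' i := dvd_trans ⟨(n' : ℤ), by push_cast; ring⟩ hij
  have hmod : (a' i + c0) % (s : ℤ) = (a' j + c0) % s := by
    symm
    refine (Int.emod_eq_emod_iff_emod_sub_eq_zero).2 (Int.emod_eq_zero_of_dvd ?_)
    have e3 : a' j + c0 - (a' i + c0) = a' j - a' i := by ring
    rw [e3]
    exact hd
  have h2 := split_til hs h' e (u := (a' j + c0) % s) (Int.emod_nonneg _ hsZ.ne') (Int.emod_lt_of_pos _ hsZ)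
  have h3 := hH' _ inferInstance _ h2
  have h4 : (⟨i, hmod⟩ : {i // (a' i + c0) % (s : ℤ) = (a' j + c0) % s}) = ⟨j, rfl⟩ := by
    apply h3
    show (((a' i + c0) / s : ℤ) : ZMod n') = (((a' j + c0) / s : ℤ) : ZMod n')
    rw [ZMod.intCast_eq_intCast_iff_dvd_sub]
    have e1 := Int.mul_ediv_add_emod (a' i + c0) s
    have e2 := Int.mul_ediv_add_emod (a' j + c0) s
    have h5 : (s : ℤ) * n' ∣ s * ((a' j + c0) / s - (a' i + c0) / s) := by
      have e4 : (s : ℤ) * ((a' j + c0) / s - (a' i + c0) / s) = a' j - a' i := by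
        linear_combination e2 - e1 + hmod
      rw [e4]
      exact_mod_cast hij
    exact (mul_dvd_mul_iff_left hsZ.ne').1 h5
  exact congrArg Subtype.val h4

theorem mul_HH [Fintype κ] {n s : ℕ} (hn : n ≠ 0) (hs : s ≠ 0) (k0 : κ) (hc : Nat.Coprime s (Fintype.card κ)) {c : κ → ℤ}
    (hH : HH n (fun k => (s : ℤ) * c k)) : HH n c := by
  have hk : 0 < Fintype.card κ := Fintype.card_pos_iff.2 ⟨k0⟩
  have : NeZero (n * Fintype.card κ) := ⟨Nat.mul_ne_zero hn hk.ne'⟩
  have key : ∀ (ι : Type) (_ : Fintype ι) (a : ι → ℤ), Til (n * Fintype.card κ) a c →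
      Til (n * Fintype.card κ) a (fun k => (s : ℤ) * c k) := fun ι _ a h => (tij h.swap s hs hc).swap
  rintro ⟨ι, hι, a, h, hh⟩ ι' hι' a' h'
  exact hH ⟨ι, hι, a, key ι hι a h, hh⟩ ι' hι' a' (key ι' hι' a' h')

/-! ### The main step -/

theorem diff_mem [Fintype ι] {n : ℕ} (hn : n ≠ 0) {a : ι → ℤ} (h : Half n a) (y : ℤ) :
    ∃ i j, (n : ℤ) ∣ y - (a i - a j) := by
  classical
  have : NeZero n := ⟨hn⟩
  set I := univ.image (fun i => ((a i : ℤ) : ZMod n)) with hI
  unfold Half at h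
  rw [← hI] at h
  set I' := I.image (fun x => x + (y : ZMod n)) with hI'
  have hc : I'.card = I.card := Finset.card_image_of_injective _ (add_left_injective _)
  have hnd : ¬ Disjoint I I' := by
    intro hd
    have h1 := Finset.card_union_of_disjoint hd
    have h2 := Finset.card_le_univ (I ∪ I')
    rw [ZMod.card] at h2
    omega
  rw [Finset.not_disjoint_iff] at hnd
  obtain ⟨z, hz, hz'⟩ := hnd
  obtain ⟨i, _, hi⟩ := Finset.mem_image.1 hz
  obtain ⟨w, hw, hw'⟩ := Finset.mem_image.1 hz'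
  obtain ⟨j, _, hj⟩ := Finset.mem_image.1 hw
  refine ⟨i, j, ?_⟩
  have h3 : ((a i - a j : ℤ) : ZMod n) = (y : ZMod n) := by
    push_cast
    rw [hi, hj, ← hw']
    ring
  exact (ZMod.intCast_eq_intCast_iff_dvd_sub _ _ _).1 h3

theorem cop_aux {n : ℕ} (hn : n ≠ 0) {y z : ℤ} (hd : (n : ℤ) ∣ y - z) {Z : ℤ} (hZ : z = (Int.gcd y n : ℤ) * Z)
    (hk : ∀ q ∈ n.primeFactors, ¬ ((q ^ n.factorization q : ℕ) : ℤ) ∣ y) {q : ℕ} (hq : q.Prime) (hqn : q ∣ n)
    (hqZ : (q : ℤ) ∣ Z) : False := by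
  set d := Int.gcd y n with hd'
  have hdn : d ∣ n := by
    have := Int.gcd_dvd_right y (n : ℤ)
    exact_mod_cast this
  have hdy : (d : ℤ) ∣ y := Int.gcd_dvd_left y (n : ℤ)
  have hd0 : d ≠ 0 := fun h => hn (Nat.eq_zero_of_zero_dvd (h ▸ hdn))
  by_cases h1 : q * d ∣ n
  · have h2 : ((q * d : ℕ) : ℤ) ∣ z := by
      rw [hZ]
      push_cast
      rw [mul_comm]
      exact mul_dvd_mul_left _ hqZ
    have h3 : ((q * d : ℕ) : ℤ) ∣ (n : ℤ) := by exact_mod_cast h1
    have h4 : ((q * d : ℕ) : ℤ) ∣ y := by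
      have e : y = (y - z) + z := by ring
      rw [e]
      exact dvd_add (dvd_trans h3 hd) h2
    have h5 : q * d ∣ d := Int.dvd_gcd h4 h3
    have h6 := Nat.le_of_dvd (Nat.pos_of_ne_zero hd0) h5
    have h7 := hq.two_le
    have h8 := Nat.pos_of_ne_zero hd0
    nlinarith
  · obtain ⟨e, he⟩ := hdn
    have h2 : ¬ q ∣ e := by
      rintro ⟨e', he'⟩
      exact h1 ⟨e', by rw [he, he']; ring⟩
    have h3 : Nat.Coprime (q ^ n.factorization q) e := Nat.Coprime.pow_left _ ((Nat.Prime.coprime_iff_not_dvd hq).2 h2)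
    have h4 : q ^ n.factorization q ∣ d * e := by
      rw [← he]
      exact Nat.ordProj_dvd n q
    have h5 : q ^ n.factorization q ∣ d := h3.dvd_of_dvd_mul_right h4
    have h6 : ((q ^ n.factorization q : ℕ) : ℤ) ∣ y := dvd_trans (by exact_mod_cast h5) hdy
    exact hk q (Nat.mem_primeFactors.2 ⟨hq, hqn, hn⟩) h6

theorem core [Fintype ι] [Fintype κ] {n : ℕ} (hn : n ≠ 0) {a : ι → ℤ} {c : κ → ℤ}
    (h : Til (n * Fintype.card κ) a c) (hh : Half n a) (hp : ∀ q : ℕ, q.Prime → q ∣ Fintype.card κ → q ∣ n) (k l : κ)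
    (hk : ∀ q ∈ n.primeFactors, ¬ ((q ^ n.factorization q : ℕ) : ℤ) ∣ c k - c l) : k = l := by
  set N := n * Fintype.card κ with hN
  have hκ : 0 < Fintype.card κ := Fintype.card_pos_iff.2 ⟨k⟩
  have hN0 : N ≠ 0 := Nat.mul_ne_zero hn hκ.ne'
  have : NeZero N := ⟨hN0⟩
  set y := c k - c l with hy
  obtain ⟨i, j, hij⟩ := diff_mem hn hh y
  set x := a i - a j with hx
  set d := Int.gcd y n with hd
  have hdn : (d : ℤ) ∣ (n : ℤ) := Int.gcd_dvd_right y (n : ℤ)
  have hdy : (d : ℤ) ∣ y := Int.gcd_dvd_left y (n : ℤ)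
  have hdx : (d : ℤ) ∣ x := by
    have e : x = y - (y - x) := by ring
    rw [e]
    exact dvd_sub hdy (dvd_trans hdn hij)
  obtain ⟨Y, hY⟩ := hdy
  obtain ⟨X, hX⟩ := hdx
  have cop : ∀ Z : ℤ, (∀ q : ℕ, q.Prime → q ∣ n → ¬ (q : ℤ) ∣ Z) → IsUnit ((Z : ℤ) : ZMod N) := by
    intro Z hZ
    rw [ZMod.coe_int_isUnit_iff_isCoprime, Int.isCoprime_iff_gcd_eq_one]
    by_contra hg
    obtain ⟨q, hq, hqd⟩ := Nat.exists_prime_and_dvd hg
    have h1 : (q : ℤ) ∣ (N : ℤ) := dvd_trans (by exact_mod_cast hqd) (Int.gcd_dvd_left (N : ℤ) Z)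
    have h2 : (q : ℤ) ∣ Z := dvd_trans (by exact_mod_cast hqd) (Int.gcd_dvd_right (N : ℤ) Z)
    have h3 : q ∣ n * Fintype.card κ := by exact_mod_cast h1
    rcases (Nat.Prime.dvd_mul hq).1 h3 with h4 | h4
    · exact hZ q hq h4 h2
    · exact hZ q hq (hp q hq h4) h2
  obtain ⟨uY, huY⟩ := cop Y fun q hq hqn hqZ => cop_aux hn (y := y) (z := y) (by simp) hY hk hq hqn hqZ
  obtain ⟨uX, huX⟩ := cop X fun q hq hqn hqZ => cop_aux hn (y := y) (z := x) hij hX hk hq hqn hqZ
  set r : ℕ := ((uY * uX⁻¹ : (ZMod N)ˣ) : ZMod N).val with hr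
  have hrc : Nat.Coprime r N := ZMod.val_coe_unit_coprime _
  by_cases hr0 : r = 0
  · rw [hr0, Nat.coprime_zero_left] at hrc
    have h1 : Fintype.card κ = 1 := Nat.eq_one_of_mul_eq_one_left (hN.symm.trans hrc)
    exact (Fintype.card_le_one_iff.1 h1.le) k l
  have hcard : Fintype.card ι = n := card_eq hn k h
  have h' := tij h r hr0 (by
    rw [hcard]
    exact Nat.Coprime.coprime_dvd_right (Dvd.intro _ rfl) hrc)
  have hrx : (((r : ℤ) * x : ℤ) : ZMod N) = ((y : ℤ) : ZMod N) := by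
    have h1 : (r : ZMod N) = ((uY * uX⁻¹ : (ZMod N)ˣ) : ZMod N) := by
      rw [hr, ZMod.natCast_zmod_val]
    rw [hX, hY]
    push_cast
    rw [h1, ← huX, ← huY]
    push_cast
    have h2 : (uX⁻¹ : (ZMod N)ˣ).val * (uX : ZMod N) = 1 := Units.inv_mul uX
    linear_combination ((uY : ZMod N) * (d : ZMod N)) * h2
  rw [ZMod.intCast_eq_intCast_iff_dvd_sub] at hrx
  have h1 : (N : ℤ) ∣ ((r : ℤ) * a j + c k) - ((r : ℤ) * a i + c l) := by
    have e : ((r : ℤ) * a j + c k) - ((r : ℤ) * a i + c l) = y - r * x := by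
      rw [hy, hx]
      ring
    rw [e]
    exact hrx
  exact (h'.1 j i k l h1).2

theorem HH_one [Fintype κ] (c : κ → ℤ) (k0 : κ) : HH 1 c := by
  rintro _ ι hι a h i j _
  have := card_eq one_ne_zero k0 h
  exact (Fintype.card_le_one_iff.1 this.le) i j

/-- the part of `m` which is coprime to `n` -/
theorem decomp (n m : ℕ) : m ≠ 0 → ∃ m' t : ℕ, m = m' * t ∧ Nat.Coprime t n ∧ ∀ q : ℕ, q.Prime → q ∣ m' → q ∣ n := by
  induction m using Nat.recOnMul with
  | zero => intro h; exact absurd rfl h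
  | one => intro _; exact ⟨1, 1, rfl, Nat.coprime_one_left n, fun q hq h => absurd (Nat.dvd_one.1 h) hq.one_lt.ne'⟩
  | prime p hp =>
    intro _
    by_cases h : p ∣ n
    · exact ⟨p, 1, (mul_one p).symm, Nat.coprime_one_left n, fun q hq hqp => by
        rw [(Nat.prime_dvd_prime_iff_eq hq hp).1 hqp]; exact h⟩
    · exact ⟨1, p, (one_mul p).symm, (Nat.Prime.coprime_iff_not_dvd hp).2 h,
        fun q hq h => absurd (Nat.dvd_one.1 h) hq.one_lt.ne'⟩
  | mul x y hx hy =>
    intro h0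
    obtain ⟨x', tx, hx1, hx2, hx3⟩ := hx (left_ne_zero_of_mul h0)
    obtain ⟨y', ty, hy1, hy2, hy3⟩ := hy (right_ne_zero_of_mul h0)
    refine ⟨x' * y', tx * ty, by rw [hx1, hy1]; ring, Nat.Coprime.mul_left hx2 hy2, fun q hq hqd => ?_⟩
    rcases (Nat.Prime.dvd_mul hq).1 hqd with h | h
    · exact hx3 q hq h
    · exact hy3 q hq h

/-- reduction to the case that all primes of `card κ` divide `n` -/
theorem red {n : ℕ} (hn : n ≠ 0)
    (hH : ∀ (κ : Type) (_ : Fintype κ) (c : κ → ℤ) (_ : κ), (∀ q : ℕ, q.Prime → q ∣ Fintype.card κ → q ∣ n) → HH n c)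
    (κ : Type) [Fintype κ] (c : κ → ℤ) (k0 : κ) : HH n c := by
  classical
  have hk : 0 < Fintype.card κ := Fintype.card_pos_iff.2 ⟨k0⟩
  obtain ⟨m', t, hm, ht, hp⟩ := decomp n (Fintype.card κ) hk.ne'
  refine kill_HH hn c k0 hm ht fun hcard => ?_
  refine hH _ inferInstance _ ⟨k0, by simp⟩ ?_
  rw [hcard]
  exact hp

theorem HH_prime {n p : ℕ} (hn : n ≠ 0) (hnp : n.primeFactors = {p}) (κ : Type) [Fintype κ] (c : κ → ℤ) (k0 : κ) :
    HH n c := by
  have hpow : p ^ n.factorization p = n := by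
    have h1 := Nat.prod_factorization_pow_eq_self hn
    rw [Finsupp.prod, Nat.support_factorization, hnp, Finset.prod_singleton] at h1
    exact h1
  refine red hn ?_ κ c k0
  intro κ _ c k0 hp
  rintro ⟨ι, hι, a, h, hh⟩
  have hall : ∀ k, (n : ℤ) ∣ c k - c k0 := by
    intro k
    by_contra hcon
    have h1 : k = k0 := by
      refine core hn h hh hp k k0 fun q hq => ?_
      rw [hnp, Finset.mem_singleton] at hq
      rw [hq, hpow]
      exact hcon
    rw [h1, sub_self] at hcon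
    exact hcon (dvd_zero _)
  have e : ∀ k, c k = c k0 + (n : ℤ) * ((c k - c k0) / n) := by
    intro k
    rw [Int.mul_ediv_cancel' (hall k)]
    ring
  have h2 := split_HH (n' := 1) hn one_ne_zero e (HH_one _ k0)
  rw [mul_one] at h2
  exact h2 ⟨ι, hι, a, h, hh⟩

theorem two_rel {P Q : κ → κ → Prop} (Ps : ∀ x y, P x y → P y x) (Pt : ∀ x y z, P x y → P y z → P x z)
    (Qs : ∀ x y, Q x y → Q y x) (Qt : ∀ x y z, Q x y → Q y z → Q x z) (h : ∀ x y, P x y ∨ Q x y) :
    (∀ x y, P x y) ∨ (∀ x y, Q x y) := by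
  by_contra hcon
  push Not at hcon
  obtain ⟨⟨k, l, hkl⟩, ⟨x, y, hxy⟩⟩ := hcon
  have hQ : Q k l := (h k l).resolve_left hkl
  have hz : ∀ z, Q z k := by
    intro z
    by_contra h1
    have h2 : P z k := (h z k).resolve_right h1
    have h3 : ¬ Q z l := fun h4 => h1 (Qt _ _ _ h4 (Qs _ _ hQ))
    have h5 : P z l := (h z l).resolve_right h3
    exact hkl (Pt _ _ _ (Ps _ _ h2) h5)
  exact hxy (Qt _ _ _ (hz x) (Qs _ _ (hz y)))

theorem two_aux {κ : Type} [Fintype κ] {p q α β : ℕ} (hp : p.Prime) (hq : q.Prime) (hβ : β ≠ 0) {c : κ → ℤ} (k0 : κ)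
    (h : ∀ k, ((p ^ α : ℕ) : ℤ) ∣ c k - c k0) : HH (p ^ α * q ^ β) c := by
  have e : ∀ k, c k = c k0 + ((p ^ α : ℕ) : ℤ) * ((c k - c k0) / ((p ^ α : ℕ) : ℤ)) := by
    intro k
    rw [Int.mul_ediv_cancel' (h k)]
    ring
  exact split_HH (pow_ne_zero _ hp.ne_zero) (pow_ne_zero _ hq.ne_zero) e
    (HH_prime (pow_ne_zero _ hq.ne_zero) (Nat.primeFactors_prime_pow hβ hq) κ _ k0)

theorem HH_two {n p q : ℕ} (hn : n ≠ 0) (hpq : p ≠ q) (hnp : n.primeFactors = {p, q}) (κ : Type) [Fintype κ]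
    (c : κ → ℤ) (k0 : κ) : HH n c := by
  have hpow : p ^ n.factorization p * q ^ n.factorization q = n := by
    have h1 := Nat.prod_factorization_pow_eq_self hn
    rw [Finsupp.prod, Nat.support_factorization, hnp, Finset.prod_pair hpq] at h1
    exact h1
  have hp' : p ∈ n.primeFactors := by rw [hnp]; exact Finset.mem_insert_self _ _
  have hq' : q ∈ n.primeFactors := by rw [hnp]; exact Finset.mem_insert_of_mem (Finset.mem_singleton_self _)
  have hpp := Nat.prime_of_mem_primeFactors hp'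
  have hqp := Nat.prime_of_mem_primeFactors hq'
  have hα : n.factorization p ≠ 0 := by
    rw [← Nat.support_factorization, Finsupp.mem_support_iff] at hp'
    exact hp'
  have hβ : n.factorization q ≠ 0 := by
    rw [← Nat.support_factorization, Finsupp.mem_support_iff] at hq'
    exact hq'
  refine red hn ?_ κ c k0
  intro κ _ c k0 hp
  rintro ⟨ι, hι, a, h, hh⟩
  have hall : ∀ k l, ((p ^ n.factorization p : ℕ) : ℤ) ∣ c k - c l ∨ ((q ^ n.factorization q : ℕ) : ℤ) ∣ c k - c l := by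
    intro k l
    by_contra hcon
    push Not at hcon
    have h1 : k = l := by
      refine core hn h hh hp k l fun q' hq' => ?_
      rw [hnp, Finset.mem_insert, Finset.mem_singleton] at hq'
      rcases hq' with rfl | rfl
      · exact hcon.1
      · exact hcon.2
    rw [h1, sub_self] at hcon
    exact hcon.1 (dvd_zero _)
  have hrel := two_rel (P := fun k l => ((p ^ n.factorization p : ℕ) : ℤ) ∣ c k - c l)
    (Q := fun k l => ((q ^ n.factorization q : ℕ) : ℤ) ∣ c k - c l)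
    (fun x y h => by rw [← neg_sub]; exact (dvd_neg).2 h)
    (fun x y z h1 h2 => by
      have := dvd_add h1 h2
      rwa [sub_add_sub_cancel] at this)
    (fun x y h => by rw [← neg_sub]; exact (dvd_neg).2 h)
    (fun x y z h1 h2 => by
      have := dvd_add h1 h2
      rwa [sub_add_sub_cancel] at this) hall
  rcases hrel with h1 | h1
  · have h2 := two_aux hpp hqp hβ (α := n.factorization p) k0 (c := c) fun k => h1 k k0
    rw [hpow] at h2
    exact h2 ⟨ι, hι, a, h, hh⟩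
  · have h2 := two_aux hqp hpp hα (α := n.factorization q) k0 (c := c) fun k => h1 k k0
    rw [mul_comm, hpow] at h2
    exact h2 ⟨ι, hι, a, h, hh⟩

theorem HH_le_two {n : ℕ} (hn : n ≠ 0) (h2 : n.primeFactors.card ≤ 2) (κ : Type) [Fintype κ] (c : κ → ℤ) (k0 : κ) :
    HH n c := by
  have h3 : n.primeFactors.card = 0 ∨ n.primeFactors.card = 1 ∨ n.primeFactors.card = 2 := by omega
  rcases h3 with h3 | h3 | h3
  · rw [Finset.card_eq_zero, Nat.primeFactors_eq_empty] at h3
    rcases h3 with h4 | h4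
    · exact absurd h4 hn
    · rw [h4]
      exact HH_one c k0
  · obtain ⟨p, hp⟩ := Finset.card_eq_one.1 h3
    exact HH_prime hn hp κ c k0
  · obtain ⟨p, q, hpq, hp⟩ := Finset.card_eq_two.1 h3
    exact HH_two hn hpq hp κ c k0

theorem HH_main {n : ℕ} (hn : n ≠ 0) (κ : Type) [Fintype κ] (c : κ → ℤ) (k0 : κ)
    (h2 : (Nat.gcd n (Fintype.card κ)).primeFactors.card ≤ 2) : HH n c := by
  have hk : 0 < Fintype.card κ := Fintype.card_pos_iff.2 ⟨k0⟩
  obtain ⟨n', s, hns, hs, hp⟩ := decomp (Fintype.card κ) n hn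
  have hs0 : s ≠ 0 := fun h => hn (by rw [hns, h, mul_zero])
  have hn0 : n' ≠ 0 := fun h => hn (by rw [hns, h, zero_mul])
  refine mul_HH hn hs0 k0 hs ?_
  rw [hns, mul_comm n' s]
  refine split_HH (c0 := 0) hs0 hn0 (c' := c) (fun k => by ring) (HH_le_two hn0 ?_ κ c k0)
  refine (Finset.card_le_card ?_).trans h2
  intro q hq
  rw [Nat.mem_primeFactors] at hq ⊢
  exact ⟨hq.1, Nat.dvd_gcd (by rw [hns]; exact Dvd.dvd.mul_right hq.2.1 s) (hp q hq.1 hq.2.1),
    Nat.gcd_ne_zero_left hn⟩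

end Pool.Agent.H52.DF
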