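import Pool.Agent.H52.DF.Dig

/-!
# The condition (T2) of Coven and Meyerowitz gives a digit complement
-/

set_option autoImplicit false

namespace Pool.Agent.H52.DF

open Finset Polynomial

variable {ι κ : Type}

/-- mask polynomial -/
noncomputable def msk [Fintype ι] (a : ι → ℕ) : ℤ[X] := ∑ i, X ^ a i

theorem msk_aeval [Fintype ι] (a : ι → ℕ) (w : ℂ) : aeval w (msk a) = ∑ i, w ^ a i := by
  unfold msk
  rw [map_sum]
  simp

theorem msk_one [Fintype ι] (a : ι → ℕ) : eval 1 (msk a) = (Fintype.card ι : ℤ) := by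
  unfold msk
  rw [eval_finsetSum]
  simp

theorem cyc_dvd {d : ℕ} (hd : 0 < d) {w : ℂ} (hw : IsPrimitiveRoot w d) (f : ℤ[X]) :
    cyclotomic d ℤ ∣ f ↔ aeval w f = 0 := by
  constructor
  · rintro ⟨g, rfl⟩
    rw [map_mul]
    have : aeval w (cyclotomic d ℤ) = 0 := by
      rw [cyclotomic_eq_minpoly hw hd]
      exact minpoly.aeval _ _
    rw [this, zero_mul]
  · intro h
    rw [cyclotomic_eq_minpoly hw hd]
    exact minpoly.isIntegrallyClosed_dvd (hw.isIntegral hd) h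

theorem sum_zero {ω : ℕ} [NeZero ω] {w : ℂ} (hw : w ^ ω = 1) (hw1 : w ≠ 1) : ∑ g : ZMod ω, w ^ g.val = 0 := by
  have h1 : w * ∑ g : ZMod ω, w ^ g.val = ∑ g : ZMod ω, w ^ g.val := by
    rw [Finset.mul_sum]
    have h : ∀ g : ZMod ω, w * w ^ g.val = w ^ (g + 1).val := by
      intro g
      have e : (g + 1) = ((g.val + 1 : ℕ) : ZMod ω) := by
        push_cast
        rw [ZMod.natCast_zmod_val]
      rw [e, ZMod.val_natCast, ← pow_eq_pow_mod _ hw, pow_succ']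
    rw [sum_congr rfl fun g _ => h g]
    exact Equiv.sum_comp (Equiv.addRight (1 : ZMod ω)) (fun g => w ^ g.val)
  have h2 : (w - 1) * ∑ g : ZMod ω, w ^ g.val = 0 := by linear_combination h1
  exact (mul_eq_zero.1 h2).resolve_left (sub_ne_zero.2 hw1)

theorem geo_zero {m : ℕ} {w : ℂ} (hw : w ^ m = 1) (hw1 : w ≠ 1) : ∑ k ∈ range m, w ^ k = 0 := by
  have h := mul_geom_sum w m
  rw [hw, sub_self] at h
  exact (mul_eq_zero.1 h).resolve_left (sub_ne_zero.2 hw1)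

theorem prod_zero [Fintype ι] [Fintype κ] {ω : ℕ} [NeZero ω] {a : ι → ℕ} {c : κ → ℕ}
    (h : Til ω (fun i => (a i : ℤ)) (fun k => (c k : ℤ))) {w : ℂ} (hw : w ^ ω = 1) (hw1 : w ≠ 1) :
    (∑ i, w ^ a i) * (∑ k, w ^ c k) = 0 := by
  rw [Finset.sum_mul_sum, ← Fintype.sum_prod_type', ← sum_zero hw hw1,
    ← (til_iff.1 h).sum_comp (fun g : ZMod ω => w ^ g.val)]
  refine sum_congr rfl fun p _ => ?_
  have e : (((a p.1 : ℤ) + (c p.2 : ℤ) : ℤ) : ZMod ω) = ((a p.1 + c p.2 : ℕ) : ZMod ω) := by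
    push_cast
    rfl
  rw [e, ZMod.val_natCast, ← pow_eq_pow_mod _ hw, pow_add]

theorem pp_inj {x y : ℕ × ℕ} (hx : x.1.Prime) (hy : y.1.Prime) (h : x.1 ^ (x.2 + 1) = y.1 ^ (y.2 + 1)) : x = y := by
  have h1 : x.1 ∣ y.1 ^ (y.2 + 1) := by
    rw [← h]
    exact dvd_pow_self _ (Nat.succ_ne_zero _)
  have h2 : x.1 = y.1 := (Nat.prime_dvd_prime_iff_eq hx hy).1 (hx.dvd_of_dvd_pow h1)
  rw [h2] at h
  have h3 := Nat.pow_right_injective hy.two_le h
  exact Prod.ext h2 (Nat.succ_injective h3)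

theorem t1 [Fintype κ] (c : κ → ℕ) (D : Finset (ℕ × ℕ)) (hD : ∀ x ∈ D, x.1.Prime)
    (h : ∀ x ∈ D, cyclotomic (x.1 ^ (x.2 + 1)) ℤ ∣ msk c) : ∏ x ∈ D, x.1 ∣ Fintype.card κ := by
  have hirr : ∀ x ∈ D, Irreducible (cyclotomic (x.1 ^ (x.2 + 1)) ℤ) := fun x hx =>
    cyclotomic.irreducible (pow_pos (hD x hx).pos _)
  have h1 : ∏ x ∈ D, cyclotomic (x.1 ^ (x.2 + 1)) ℤ ∣ msk c := by
    refine Finset.prod_dvd_of_isRelPrime ?_ h
    intro x hx y hy hxy
    refine ((hirr x hx).isRelPrime_iff_not_dvd).2 fun hd => hxy ?_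
    have h2 : Associated (cyclotomic (x.1 ^ (x.2 + 1)) ℤ) (cyclotomic (y.1 ^ (y.2 + 1)) ℤ) :=
      (hirr x hx).associated_of_dvd (hirr y hy) hd
    have h3 := Polynomial.eq_of_monic_of_associated (cyclotomic.monic _ ℤ) (cyclotomic.monic _ ℤ) h2
    exact pp_inj (hD x hx) (hD y hy) (cyclotomic_injective h3)
  have h2 := Polynomial.eval_dvd (x := (1 : ℤ)) h1
  rw [eval_prod, msk_one] at h2
  have h3 : ∏ x ∈ D, eval 1 (cyclotomic (x.1 ^ (x.2 + 1)) ℤ) = ((∏ x ∈ D, x.1 : ℕ) : ℤ) := by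
    push_cast
    refine Finset.prod_congr rfl fun x hx => ?_
    have : Fact x.1.Prime := ⟨hD x hx⟩
    exact eval_one_cyclotomic_prime_pow x.2
  rw [h3] at h2
  exact_mod_cast h2

/-- the digit set in the natural numbers -/
def dg (ω : ℕ) (D : Finset (ℕ × ℕ)) (ε : (x : {x // x ∈ D}) → Fin x.1.1) : ℕ :=
  ∑ x : {x // x ∈ D}, (ε x : ℕ) * gg ω x.1.1 x.1.2

theorem dg_dig (ω : ℕ) (D : Finset (ℕ × ℕ)) (ε : (x : {x // x ∈ D}) → Fin x.1.1) : ((dg ω D ε : ℕ) : ℤ) = dig ω D ε := by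
  unfold dg dig
  push_cast
  rfl

theorem dg_sum (ω : ℕ) (D : Finset (ℕ × ℕ)) (w : ℂ) :
    ∑ ε : (x : {x // x ∈ D}) → Fin x.1.1, w ^ dg ω D ε =
      ∏ x : {x // x ∈ D}, ∑ t : Fin x.1.1, w ^ ((t : ℕ) * gg ω x.1.1 x.1.2) := by
  classical
  rw [Finset.prod_univ_sum, Fintype.piFinset_univ]
  refine sum_congr rfl fun ε _ => ?_
  unfold dg
  rw [Finset.prod_pow_eq_pow_sum]

/-- (T2) gives a digit complement -/
theorem t2_til [Fintype ι] [Fintype κ] {ω : ℕ} (hω : ω ≠ 0) {a : ι → ℕ} {c : κ → ℕ}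
    (h : Til ω (fun i => (a i : ℤ)) (fun k => (c k : ℤ)))
    (hT2 : ∀ d : ℕ, d ∣ ω → d ≠ 1 → (∀ q : ℕ, q.Prime → q ∣ d → cyclotomic (q ^ d.factorization q) ℤ ∣ msk a) →
      cyclotomic d ℤ ∣ msk a) :
    ∃ D : Finset (ℕ × ℕ), (∀ x ∈ D, x.1.Prime ∧ x.2 < ω.factorization x.1) ∧
      Til ω (fun i => (a i : ℤ)) (dig ω D) := by
  classical
  have hωz : NeZero ω := ⟨hω⟩
  let D : Finset (ℕ × ℕ) := (ω.primeFactors ×ˢ range ω).filter
    (fun x => x.2 < ω.factorization x.1 ∧ ¬ cyclotomic (x.1 ^ (x.2 + 1)) ℤ ∣ msk a)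
  have hmemD : ∀ q j : ℕ, (q, j) ∈ D ↔ q.Prime ∧ j < ω.factorization q ∧ ¬ cyclotomic (q ^ (j + 1)) ℤ ∣ msk a := by
    intro q j
    rw [Finset.mem_filter, Finset.mem_product]
    constructor
    · rintro ⟨⟨h1, _⟩, h2, h3⟩
      exact ⟨Nat.prime_of_mem_primeFactors h1, h2, h3⟩
    · rintro ⟨h1, h2, h3⟩
      refine ⟨⟨?_, ?_⟩, h2, h3⟩
      · show q ∈ ω.primeFactors
        rw [← Nat.support_factorization, Finsupp.mem_support_iff]
        omega
      · show j ∈ range ω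
        exact Finset.mem_range.2 (h2.trans (Nat.factorization_lt q hω))
  have hDp : ∀ x ∈ D, x.1.Prime := fun x hx => ((hmemD x.1 x.2).1 hx).1
  have hD1 : ∀ x ∈ D, x.1.Prime ∧ x.2 < ω.factorization x.1 := fun x hx =>
    ⟨((hmemD x.1 x.2).1 hx).1, ((hmemD x.1 x.2).1 hx).2.1⟩
  refine ⟨D, hD1, ?_⟩
  have hcard := til_card h
  -- the other factor vanishes at the digits
  have hc : ∀ x ∈ D, cyclotomic (x.1 ^ (x.2 + 1)) ℤ ∣ msk c := by
    intro x hx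
    obtain ⟨h1, h2, h3⟩ := (hmemD x.1 x.2).1 hx
    have hpos : 0 < x.1 ^ (x.2 + 1) := pow_pos h1.pos _
    have hζ := Complex.isPrimitiveRoot_exp (x.1 ^ (x.2 + 1)) hpos.ne'
    set w := Complex.exp (2 * Real.pi * Complex.I / ((x.1 ^ (x.2 + 1) : ℕ) : ℂ)) with hw
    have hdω : x.1 ^ (x.2 + 1) ∣ ω := (h1.pow_dvd_iff_le_factorization hω).2 h2
    have hwω : w ^ ω = 1 := (hζ.pow_eq_one_iff_dvd ω).2 hdω
    have hw1 : w ≠ 1 := by
      refine hζ.ne_one ?_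
      exact one_lt_pow₀ h1.one_lt (Nat.succ_ne_zero _)
    have h4 := prod_zero h hwω hw1
    rw [cyc_dvd hpos hζ, msk_aeval] at h3
    rw [cyc_dvd hpos hζ, msk_aeval]
    exact (mul_eq_zero.1 h4).resolve_left h3
  have hK : Fintype.card ((x : {x // x ∈ D}) → Fin x.1.1) ∣ Fintype.card κ := by
    rw [dig_card]
    exact t1 c D hDp hc
  -- vanishing
  have hvan : ∀ w : ℂ, w ^ ω = 1 → w ≠ 1 →
      (∑ i, w ^ a i) * (∑ ε : (x : {x // x ∈ D}) → Fin x.1.1, w ^ dg ω D ε) = 0 := by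
    intro w hw hw1
    have hwo := IsPrimitiveRoot.orderOf w
    set d := orderOf w with hd
    have hdω : d ∣ ω := orderOf_dvd_of_pow_eq_one hw
    have hd0 : d ≠ 0 := fun h => hω (Nat.eq_zero_of_zero_dvd (h ▸ hdω))
    have hd1 : d ≠ 1 := fun h => hw1 (orderOf_eq_one_iff.1 h)
    by_cases hall : ∀ q : ℕ, q.Prime → q ∣ d → cyclotomic (q ^ d.factorization q) ℤ ∣ msk a
    · have h1 := hT2 d hdω hd1 hall
      rw [cyc_dvd (Nat.pos_of_ne_zero hd0) hwo, msk_aeval] at h1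
      rw [h1, zero_mul]
    · push Not at hall
      obtain ⟨q, hq, hqd, hqc⟩ := hall
      have hb : 1 ≤ d.factorization q := (hq.dvd_iff_one_le_factorization hd0).1 hqd
      obtain ⟨b, hb'⟩ : ∃ b, d.factorization q = b + 1 := ⟨d.factorization q - 1, by omega⟩
      rw [hb'] at hqc
      have hbω : b < ω.factorization q := by
        have := (Nat.factorization_le_iff_dvd hd0 hω).2 hdω q
        omega
      have hmem : (q, b) ∈ D := (hmemD q b).2 ⟨hq, hbω, hqc⟩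
      rw [dg_sum]
      have hz : ∏ x : {x // x ∈ D}, ∑ t : Fin x.1.1, w ^ ((t : ℕ) * gg ω x.1.1 x.1.2) = 0 := by
        refine Finset.prod_eq_zero (Finset.mem_univ (⟨(q, b), hmem⟩ : {x // x ∈ D})) ?_
        show ∑ t : Fin q, w ^ ((t : ℕ) * gg ω q b) = 0
        have h1 : ∀ t : Fin q, w ^ ((t : ℕ) * gg ω q b) = (w ^ gg ω q b) ^ (t : ℕ) := by
          intro t
          rw [← pow_mul, mul_comm]
        rw [sum_congr rfl fun t _ => h1 t, Fin.sum_univ_eq_sum_range (fun t => (w ^ gg ω q b) ^ t) q]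
        refine geo_zero ?_ ?_
        · rw [← pow_mul, hwo.pow_eq_one_iff_dvd]
          have h0 := Nat.ordCompl_dvd_ordCompl_of_dvd hdω q
          have h2 : ordProj[q] d * ordCompl[q] d ∣ gg ω q b * q := by
            unfold gg
            rw [hb'] at h0
            rw [hb', mul_assoc, ← pow_succ, mul_comm]
            exact mul_dvd_mul h0 (dvd_refl _)
          rwa [Nat.ordProj_mul_ordCompl_eq_self] at h2
        · rw [Ne, hwo.pow_eq_one_iff_dvd]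
          intro h2
          have h3 : q ^ (b + 1) ∣ gg ω q b := by
            refine dvd_trans ?_ h2
            rw [← hb']
            exact Nat.ordProj_dvd d q
          rw [gg_dvd hω hq] at h3
          omega
      rw [hz, mul_zero]
  -- surjectivity
  have hι0 : Fintype.card ι ≠ 0 := fun h0 => hω (by rw [← hcard, h0, zero_mul])
  have hκ0 : Fintype.card κ ≠ 0 := fun h0 => hω (by rw [← hcard, h0, mul_zero])
  have hK0 : Fintype.card ((x : {x // x ∈ D}) → Fin x.1.1) ≠ 0 := fun h0 => hκ0 (Nat.eq_zero_of_zero_dvd (h0 ▸ hK))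
  have hsurj : ∀ g : ℤ, ∃ (i : ι) (ε : (x : {x // x ∈ D}) → Fin x.1.1), (ω : ℤ) ∣ ((a i : ℤ) + dig ω D ε) - g := by
    intro g
    by_contra hcon
    push Not at hcon
    have hζ := Complex.isPrimitiveRoot_exp ω hω
    set ζ := Complex.exp (2 * Real.pi * Complex.I / (ω : ℂ)) with hζd
    have hζ0 : ζ ≠ 0 := Complex.exp_ne_zero _
    have h1 : ∀ (i : ι) (ε : (x : {x // x ∈ D}) → Fin x.1.1),
        ∑ k ∈ range ω, (ζ ^ (((a i : ℤ) + dig ω D ε) - g)) ^ k = 0 := by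
      intro i ε
      refine geo_zero ?_ ?_
      · rw [← zpow_natCast, ← zpow_mul, mul_comm, zpow_mul, zpow_natCast, hζ.pow_eq_one, one_zpow]
      · rw [Ne, hζ.zpow_eq_one_iff_dvd]
        exact hcon i ε
    have h2 : ∑ i : ι, ∑ ε : (x : {x // x ∈ D}) → Fin x.1.1,
        ∑ k ∈ range ω, (ζ ^ (((a i : ℤ) + dig ω D ε) - g)) ^ k = 0 :=
      Finset.sum_eq_zero fun i _ => Finset.sum_eq_zero fun ε _ => h1 i ε
    have h3 : ∑ i : ι, ∑ ε : (x : {x // x ∈ D}) → Fin x.1.1,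
        ∑ k ∈ range ω, (ζ ^ (((a i : ℤ) + dig ω D ε) - g)) ^ k =
        ∑ k ∈ range ω, (ζ ^ (-g)) ^ k * ((∑ i, (ζ ^ k) ^ a i) *
          (∑ ε : (x : {x // x ∈ D}) → Fin x.1.1, (ζ ^ k) ^ dg ω D ε)) := by
      have e1 : ∀ i : ι, ∑ ε : (x : {x // x ∈ D}) → Fin x.1.1,
          ∑ k ∈ range ω, (ζ ^ (((a i : ℤ) + dig ω D ε) - g)) ^ k =
          ∑ k ∈ range ω, ∑ ε : (x : {x // x ∈ D}) → Fin x.1.1, (ζ ^ (((a i : ℤ) + dig ω D ε) - g)) ^ k := fun i =>
        Finset.sum_comm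
      rw [sum_congr rfl fun i _ => e1 i, Finset.sum_comm]
      refine sum_congr rfl fun k _ => ?_
      rw [Finset.sum_mul_sum, Finset.mul_sum]
      refine sum_congr rfl fun i _ => ?_
      rw [Finset.mul_sum]
      refine sum_congr rfl fun ε _ => ?_
      rw [← dg_dig, ← pow_mul, ← pow_mul, ← zpow_natCast, ← zpow_natCast, ← zpow_natCast, ← zpow_natCast, ← zpow_mul,
        ← zpow_mul, ← zpow_add₀ hζ0, ← zpow_add₀ hζ0]
      congr 1
      push_cast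
      ring
    rw [h3] at h2
    obtain ⟨m, hm⟩ : ∃ m, ω = m + 1 := ⟨ω - 1, by omega⟩
    have h4 : ∑ k ∈ range ω, (ζ ^ (-g)) ^ k * ((∑ i, (ζ ^ k) ^ a i) *
          (∑ ε : (x : {x // x ∈ D}) → Fin x.1.1, (ζ ^ k) ^ dg ω D ε)) =
        (Fintype.card ι : ℂ) * (Fintype.card ((x : {x // x ∈ D}) → Fin x.1.1) : ℂ) := by
      rw [Finset.sum_eq_single 0]
      · simp
      · intro k hk hk0
        rw [hvan (ζ ^ k) (by rw [← pow_mul, mul_comm, pow_mul, hζ.pow_eq_one, one_pow]) (by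
          rw [Ne, hζ.pow_eq_one_iff_dvd]
          intro h5
          have := Nat.le_of_dvd (Nat.pos_of_ne_zero hk0) h5
          exact absurd (Finset.mem_range.1 hk) (not_lt.2 this)), mul_zero]
      · intro h0
        exact absurd (Finset.mem_range.2 (Nat.pos_of_ne_zero hω)) h0
    rw [h4] at h2
    rcases mul_eq_zero.1 h2 with h5 | h5
    · exact hι0 (by exact_mod_cast h5)
    · exact hK0 (by exact_mod_cast h5)
  -- bijectivity
  have hs : Function.Surjective (fun p : ι × ((x : {x // x ∈ D}) → Fin x.1.1) =>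
      (((a p.1 : ℤ) + dig ω D p.2 : ℤ) : ZMod ω)) := by
    intro y
    obtain ⟨z, rfl⟩ := ZMod.intCast_surjective y
    obtain ⟨i, ε, h1⟩ := hsurj z
    refine ⟨(i, ε), ?_⟩
    exact ((ZMod.intCast_eq_intCast_iff_dvd_sub _ _ _).2 h1).symm
  have hle : Fintype.card (ι × ((x : {x // x ∈ D}) → Fin x.1.1)) ≤ Fintype.card (ZMod ω) := by
    rw [Fintype.card_prod, ZMod.card, ← hcard]
    exact Nat.mul_le_mul_left _ (Nat.le_of_dvd (Nat.pos_of_ne_zero hκ0) hK)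
  rw [til_iff]
  exact (Fintype.bijective_iff_surjective_and_card _).2
    ⟨hs, le_antisymm hle (Fintype.card_le_of_surjective _ hs)⟩

/-- (T2) and more than half of the classes -/
theorem t2_main [Fintype ι] [Fintype κ] {ω n : ℕ} (hω : ω ≠ 0) (hn : n ≠ 0) {a : ι → ℕ} {c : κ → ℕ}
    (hι : Fintype.card ι = n) (h : Til ω (fun i => (a i : ℤ)) (fun k => (c k : ℤ)))
    (hT2 : ∀ d : ℕ, d ∣ ω → d ≠ 1 → (∀ q : ℕ, q.Prime → q ∣ d → cyclotomic (q ^ d.factorization q) ℤ ∣ msk a) →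
      cyclotomic d ℤ ∣ msk a) (hh : Half n (fun i => (a i : ℤ))) : Inj n (fun i => (a i : ℤ)) := by
  obtain ⟨D, hD, hT⟩ := t2_til hω h hT2
  exact dig_main hω hn D hD hι hT hh

end Pool.Agent.H52.DF
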